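import Pool.Agent.J4.H92.PI.Jen

/-!
# Arbitrary `h` where the scalar curvature is negative: the inequality for two ends
-/

set_option autoImplicit false

namespace Pool.Agent.J4.H92.PI

open Pool.Agent.K4H63.PI
open scoped BigOperators Topology
open Matrix Filter Set MeasureTheory

theorem rho_hasDerivAt {φ : ℝ → ℝ} (hφ : Good φ) {r : ℝ} (hr : 0 < r) :
    HasDerivAt (fun s => (φ s) ^ 2 * s) ((φ r) ^ 2 * pp φ r) r := by
  have hp := hφ.pos r hr
  have d1 := (hφ.diff hr).hasDerivAt
  have hd : deriv φ r = r * φ r * psi φ r / 2 := by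
    unfold psi
    field_simp
  rw [hd] at d1
  refine ((d1.fun_pow 2).mul (hasDerivAt_id r)).congr_deriv ?_
  simp only [id, Nat.cast_ofNat, Nat.reduceSub, pow_one, mul_one]
  unfold pp
  ring

/-- If the area radius tends to infinity at the other end, some centred sphere has `H ≤ 0`. -/
theorem exists_nonpos {φ : ℝ → ℝ} (hφ : Good φ)
    (other : Tendsto (fun r => (φ r) ^ 2 * r) (𝓝[>] 0) atTop) :
    ∃ r, 0 < r ∧ pp φ r ≤ 0 := by
  by_contra hcon
  push Not at hcon
  have hmono : MonotoneOn (fun r => (φ r) ^ 2 * r) (Ioi 0) := by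
    apply monotoneOn_of_deriv_nonneg (convex_Ioi 0)
    · exact fun r hr => (rho_hasDerivAt hφ hr).continuousAt.continuousWithinAt
    · intro r hr
      rw [interior_Ioi] at hr
      exact (rho_hasDerivAt hφ hr).differentiableAt.differentiableWithinAt
    · intro r hr
      rw [interior_Ioi] at hr
      rw [(rho_hasDerivAt hφ hr).deriv]
      have := hcon r hr
      positivity
  have h1 := other.eventually (eventually_gt_atTop ((φ 1) ^ 2 * 1))
  have h2 : ∀ᶠ r in 𝓝[>] (0:ℝ), r < 1 :=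
    mem_nhdsWithin_of_mem_nhds (Iio_mem_nhds one_pos)
  have h3 : ∀ᶠ r in 𝓝[>] (0:ℝ), 0 < r := eventually_mem_nhdsWithin
  obtain ⟨r, ⟨h4, h5⟩, h6⟩ := ((h1.and h2).and h3).exists
  have := hmono (mem_Ioi.2 h6) (mem_Ioi.2 one_pos) h5.le
  simp only at this
  linarith

theorem jensen_theorem {φ : ℝ → ℝ} {h : E → Matrix (Fin 3) (Fin 3) ℝ} {m : ℝ}
    (hφ : Good φ) (H : Tensor h) (flat : FlatEnd φ m) (decay : Decay h)
    {r₀ r₂ : ℝ} (hr₀ : 0 < r₀) (hmin : pp φ r₀ = 0) (hout : ∀ r, r₀ < r → 0 < pp φ r)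
    (dec : ∀ x : E, r₀ < ‖x‖ → momentumNorm (metric φ) h x ≤ energy (metric φ) h x)
    (inner : ∀ x : E, r₀ < ‖x‖ → ‖x‖ ≤ r₂ → 0 ≤ scal (metric φ) x)
    (outer : ∀ r : ℝ, r₀ < r → r₂ < r → ∀ w : E, ‖w‖ = 1 →
      scal (metric φ) (r • w) ≤ 0 ∧ qq h (r • w) ≠ 0 ∧
      r * (qq h (r • w) * Jn φ h (r • w)) ≤ pp φ r * (2 * (φ r) ^ 2 * |Jn φ h (r • w)|)) :
    (φ r₀) ^ 2 * r₀ ≤ 2 * m := by
  set q : ℝ → ℝ := sphAvg (qq h) with hq
  obtain ⟨C, hC⟩ := decay
  set r₃ := max r₀ r₂ with hr₃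
  have h03 : r₀ ≤ r₃ := le_max_left _ _
  have h30 : 0 < r₃ := hr₀.trans_le h03
  have cq : ∀ r, 0 < r → ContinuousAt q r := fun r hr =>
    (sphAvg_hasDerivAt H.qq_smooth hr).continuousAt
  -- the first part
  have hYY : (φ r₀) ^ 2 * r₀ ≤ YY φ r₃ := by
    have hm : MonotoneOn (YY φ) (Icc r₀ r₃) := by
      apply monotoneOn_of_deriv_nonneg (convex_Icc r₀ r₃)
      · exact fun r hr => (hasDerivAt_YY hφ (hr₀.trans_le hr.1)
          (ray_norm e0_norm (hr₀.trans_le hr.1))).continuousAt.continuousWithinAt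
      · intro r hr
        rw [interior_Icc] at hr
        exact (hasDerivAt_YY hφ (hr₀.trans hr.1)
          (ray_norm e0_norm (hr₀.trans hr.1))).differentiableAt.differentiableWithinAt
      · intro r hr
        rw [interior_Icc] at hr
        have h0 := hr₀.trans hr.1
        rw [(hasDerivAt_YY hφ h0 (ray_norm e0_norm h0)).deriv]
        have hp := hφ.pos r h0
        have hy := hout r hr.1
        have h2 : r ≤ r₂ := by
          rcases le_total r₀ r₂ with hle | hle
          · rw [hr₃, max_eq_right hle] at hr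
            exact hr.2.le
          · rw [hr₃, max_eq_left hle] at hr
            exact absurd (hr.1.trans hr.2) (lt_irrefl _)
        have hs := inner (r • (EuclideanSpace.single 0 1 : E))
          (by rw [ray_norm e0_norm h0]; exact hr.1) (by rw [ray_norm e0_norm h0]; exact h2)
        positivity
    have h1 := hm (left_mem_Icc.2 h03) (right_mem_Icc.2 h03) h03
    have h2 : YY φ r₀ = (φ r₀) ^ 2 * r₀ := by
      unfold YY
      rw [hmin]
      ring
    rwa [h2] at h1
  have hFY : YY φ r₃ ≤ FF φ q r₃ := by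
    unfold FF
    have hp := hφ.pos r₃ h30
    have : 0 ≤ r₃ ^ 3 * (q r₃) ^ 2 / (4 * (φ r₃) ^ 2) := by positivity
    linarith
  -- the second part
  have hFm := mono_of_deriv (f := FF φ q) (f' := fun r => r ^ 2 / (2 * (φ r) ^ 2) *
      (pp φ r * ((φ r) ^ 8 * scal (metric φ) (r • (EuclideanSpace.single 0 1 : E)) +
      2 * sphAvg (qq h) r * sphAvg (hrad h) r + (sphAvg (qq h) r) ^ 2 / 2) -
      r * sphAvg (qq h) r * JR φ h r)) (r₀ := r₃)
    (fun r hr => (FFavg_hasDerivAt hφ H (h30.trans_le hr)).continuousAt)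
    (fun r hr => FFavg_hasDerivAt hφ H (h30.trans hr))
    (fun r hr => by
      have h0 := h30.trans hr
      have hp := hφ.pos r h0
      have h1 : r₀ < r := h03.trans_lt hr
      have h2 : r₂ < r := (le_max_right _ _).trans_lt hr
      have ho := outer r h1 h2
      exact mul_nonneg (by positivity) (jensen_step hφ H h0 (hout r h1).le
        (fun w hw => dec _ (by rw [ray_norm hw h0]; exact h1)) (ho _ e0_norm).1
        (fun w hw => (ho w hw).2.1) (fun w hw => (ho w hw).2.2)))
  have hbq : ∀ r : ℝ, 1 ≤ r → |q r| ≤ 12 * C / r ^ 2 := fun r hr =>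
    sphAvg_bound H.qq_smooth.continuousOn (by linarith) (fun w hw => by
      have h0 : 0 < r := by linarith
      have h2 := hC (r • w) (by rw [ray_norm hw h0]; exact hr)
      rw [ray_norm hw h0] at h2
      calc |qq h (r • w)| ≤ 12 * (C / r ^ 2) := qq_bound (ray_ne hw h0) h2
        _ = 12 * C / r ^ 2 := by ring)
  have hlim : Tendsto (FF φ q) atTop (𝓝 (2 * m)) := by
    have h1 := (flat.YY hφ).add (tendsto_sq_term flat.one hbq)
    rw [add_zero] at h1
    exact h1
  have hfin := ge_of_tendsto hlim (by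
    filter_upwards [eventually_ge_atTop r₃] with r hr
    exact hFm r hr)
  linarith

end Pool.Agent.J4.H92.PI
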