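import Pool.Agent.J4.H92.PI.Jen2
import Pool.Agent.K4H63.PI.Main3

/-!
# Conditions on one sphere: `h(ν, ν)` is a function of `tr_S h`
-/

set_option autoImplicit false

namespace Pool.Agent.J4.H92.PI

open Pool.Agent.K4H63.PI
open scoped BigOperators Topology
open Matrix Filter Set MeasureTheory

/-- The integrand of the derivative of `FF`. -/
noncomputable def GG (φ : ℝ → ℝ) (h : E → Matrix (Fin 3) (Fin 3) ℝ) (r : ℝ) : ℝ :=
  pp φ r * ((φ r) ^ 8 * scal (metric φ) (r • (EuclideanSpace.single 0 1 : E)) +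
      2 * sphAvg (qq h) r * sphAvg (hrad h) r + (sphAvg (qq h) r) ^ 2 / 2) -
      r * sphAvg (qq h) r * JR φ h r

/-- A continuous function takes its mean value on the sphere. -/
theorem exists_mean {F : E → ℝ} (hF : ContinuousOn F {0}ᶜ) {r : ℝ} (hr : 0 < r) :
    ∃ w : E, ‖w‖ = 1 ∧ F (r • w) = sphAvg F r := by
  have hconn : IsPreconnected (Metric.sphere (0 : E) 1) := by
    refine isPreconnected_sphere ?_ 0 1
    rw [← Module.finrank_eq_rank]
    simp
  have hcomp : IsCompact (Metric.sphere (0 : E) 1) := isCompact_sphere 0 1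
  have hne : (Metric.sphere (0 : E) 1).Nonempty :=
    ⟨EuclideanSpace.single 0 1, mem_sphere_zero_iff_norm.2 e0_norm⟩
  have hc : ContinuousOn (fun w : E => F (r • w)) (Metric.sphere (0 : E) 1) := by
    refine hF.comp (continuous_const_smul r).continuousOn ?_
    intro w hw
    exact ray_ne (mem_sphere_zero_iff_norm.1 hw) hr
  obtain ⟨a, ha, hmin⟩ := hcomp.exists_isMinOn hne hc
  obtain ⟨b, hb, hmax⟩ := hcomp.exists_isMaxOn hne hc
  have h1 := sphAvg_mono (F := fun _ => F (r • a)) (G := F) (r := r)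
    continuousOn_const hF hr (fun w hw => hmin (mem_sphere_zero_iff_norm.2 hw))
  have h2 := sphAvg_mono (F := F) (G := fun _ => F (r • b)) (r := r)
    hF continuousOn_const hr (fun w hw => hmax (mem_sphere_zero_iff_norm.2 hw))
  rw [sphAvg_const] at h1 h2
  obtain ⟨c, hc1, hc2⟩ := hconn.intermediate_value ha hb hc ⟨h1, h2⟩
  exact ⟨c, mem_sphere_zero_iff_norm.1 hc1, hc2⟩

/-- The scalar curvature depends only on `r`. -/
theorem scal_ray {φ : ℝ → ℝ} (hφ : Good φ) {r : ℝ} (hr : 0 < r) {w : E} (hw : ‖w‖ = 1) :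
    scal (metric φ) (r • w) = scal (metric φ) (r • (EuclideanSpace.single 0 1 : E)) := by
  rw [scal_metric hφ (ray_ne hw hr), scal_metric hφ (ray_ne e0_norm hr), ray_norm hw hr,
    ray_norm e0_norm hr]

/-- The dominant energy condition at one point, with the full norm of `J`. -/
theorem dec_point_norm {φ : ℝ → ℝ} (hφ : Good φ) {h : E → Matrix (Fin 3) (Fin 3) ℝ}
    {x : E} (hx : x ≠ 0) (hdec : momentumNorm (metric φ) h x ≤ energy (metric φ) h x) :
    2 * (φ ‖x‖) ^ 8 * momentumNorm (metric φ) h x ≤ (φ ‖x‖) ^ 8 * scal (metric φ) x +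
      2 * hrad h x * qq h x + (qq h x) ^ 2 / 2 := by
  have hp := hφ.pos _ (norm_pos_iff.2 hx)
  have h1 := transverse_nonneg h hx
  have h2 := quad_at hφ h hx
  have h3 : energy (metric φ) h x = 1 / 2 * (scal (metric φ) x +
      ((φ ‖x‖) ^ 8)⁻¹ * (2 * hrad h x * qq h x + (qq h x) ^ 2 / 2 - transverse h x)) := by
    unfold energy
    rw [← h2]
    ring
  rw [h3] at hdec
  have h4 := mul_le_mul_of_nonneg_left hdec (show 0 ≤ 2 * (φ ‖x‖) ^ 8 by positivity)
  have e : 2 * (φ ‖x‖) ^ 8 * (1 / 2 * (scal (metric φ) x +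
      ((φ ‖x‖) ^ 8)⁻¹ * (2 * hrad h x * qq h x + (qq h x) ^ 2 / 2 - transverse h x))) =
      (φ ‖x‖) ^ 8 * scal (metric φ) x +
        (2 * hrad h x * qq h x + (qq h x) ^ 2 / 2 - transverse h x) := by
    field_simp
  rw [e] at h4
  linarith

/-- One point of the sphere at which `tr_S h` has its mean value. -/
theorem point_step {φ : ℝ → ℝ} (hφ : Good φ) {h : E → Matrix (Fin 3) (Fin 3) ℝ}
    {r : ℝ} (hr : 0 < r) (hy : 0 ≤ pp φ r) {w : E} (hw : ‖w‖ = 1)
    (hdec : momentumNorm (metric φ) h (r • w) ≤ energy (metric φ) h (r • w))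
    (hq : qq h (r • w) = sphAvg (qq h) r)
    (hb : sphAvg (qq h) r * hrad h (r • w) ≤ sphAvg (qq h) r * sphAvg (hrad h) r)
    (hJ : r * (sphAvg (qq h) r * JR φ h r) ≤
      pp φ r * (2 * (φ r) ^ 8 * momentumNorm (metric φ) h (r • w))) :
    0 ≤ GG φ h r := by
  have h1 := dec_point_norm hφ (ray_ne hw hr) hdec
  rw [ray_norm hw hr, scal_ray hφ hr hw, hq] at h1
  have h2 : 2 * (φ r) ^ 8 * momentumNorm (metric φ) h (r • w) ≤
      (φ r) ^ 8 * scal (metric φ) (r • (EuclideanSpace.single 0 1 : E)) +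
      2 * sphAvg (qq h) r * sphAvg (hrad h) r + (sphAvg (qq h) r) ^ 2 / 2 := by
    linarith
  have h3 := mul_le_mul_of_nonneg_left h2 hy
  unfold GG
  linarith

/-- Jensen's inequality on a centred sphere. -/
theorem jensen {F : E → ℝ} (hF : ContinuousOn F {0}ᶜ) {r : ℝ} (hr : 0 < r) {f : ℝ → ℝ}
    (hf : ConvexOn ℝ univ f) : f (sphAvg F r) ≤ sphAvg (fun x => f (F x)) r := by
  have hfc : Continuous f := continuousOn_univ.1 (hf.continuousOn isOpen_univ)
  have h0 : (sph : Measure (Metric.sphere (0 : E) 1)).real univ = 4 * Real.pi := sph_real_univ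
  have hpi := Real.pi_pos
  have hne : NeZero (sph : Measure (Metric.sphere (0 : E) 1)) := ⟨by
    intro h
    rw [h] at h0
    simp at h0⟩
  have hc := sph_cont hF hr
  have h1 := hf.map_average_le (μ := sph) (f := fun ω => F (r • (ω : E))) hfc.continuousOn
    isClosed_univ (Eventually.of_forall fun _ => mem_univ _) (sph_integrable hF hr)
    (sph_integrable (F := fun x => f (F x)) (hfc.comp_continuousOn hF) hr)
  rw [average_eq, average_eq, h0] at h1
  unfold sphAvg
  simpa using h1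

theorem sphAvg_neg' (F : E → ℝ) (r : ℝ) : sphAvg (fun x => -F x) r = -sphAvg F r := by
  have := sphAvg_mul (-1) F r
  simpa using this

/-- The condition on `h` on the centred sphere of radius `r`: `h(ν, ν)` is a function of
`tr_S h`, convex if the mean value of `tr_S h` is positive and concave if it is negative. -/
def FunRel (φ : ℝ → ℝ) (h : E → Matrix (Fin 3) (Fin 3) ℝ) (r : ℝ) : Prop :=
  ∃ f : ℝ → ℝ, (∀ w : E, ‖w‖ = 1 → hNN φ h (r • w) = f (trS φ h (r • w))) ∧
    (0 < sphAvg (trS φ h) r → ConvexOn ℝ univ f) ∧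
    (sphAvg (trS φ h) r < 0 → ConcaveOn ℝ univ f)

theorem trS_contOn {φ : ℝ → ℝ} (hφ : Good φ) {h : E → Matrix (Fin 3) (Fin 3) ℝ} (H : Tensor h) :
    ContinuousOn (trS φ h) {0}ᶜ := by
  unfold trS
  refine ContinuousOn.mul ?_ H.qq_smooth.continuousOn
  have h1 : ContinuousOn (fun x : E => φ ‖x‖) {0}ᶜ := by
    intro x hx
    have hn : 0 < ‖x‖ := norm_pos_iff.2 hx
    exact ((hφ.diff hn).continuousAt.comp (continuous_norm.continuousAt)).continuousWithinAt
  refine (h1.pow 4).inv₀ ?_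
  intro x hx
  have hn : 0 < ‖x‖ := norm_pos_iff.2 hx
  exact (pow_pos (hφ.pos _ hn) 4).ne'

theorem rel_step {φ : ℝ → ℝ} (hφ : Good φ) {h : E → Matrix (Fin 3) (Fin 3) ℝ} (H : Tensor h)
    {r : ℝ} (hr : 0 < r) (hy : 0 ≤ pp φ r)
    (hdec : ∀ w : E, ‖w‖ = 1 →
      momentumNorm (metric φ) h (r • w) ≤ energy (metric φ) h (r • w))
    (hrel : FunRel φ h r)
    (hJ : sphAvg (trS φ h) r * sphAvg (radialJ φ h) r ≤ 0 ∨
      (|sphAvg (trS φ h) r| ≤ sphereH φ r ∧
        ∀ w : E, ‖w‖ = 1 → |sphAvg (radialJ φ h) r| ≤ momentumNorm (metric φ) h (r • w))) :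
    0 ≤ GG φ h r := by
  have hp := hφ.pos r hr
  have cT := trS_contOn hφ H
  obtain ⟨w, hw, hq⟩ := exists_mean cT hr
  obtain ⟨f, hf, hcv, hcc⟩ := hrel
  have e1 : trS φ h (r • w) = ((φ r) ^ 4)⁻¹ * qq h (r • w) := by
    unfold trS
    rw [ray_norm hw hr]
  have e2 : hNN φ h (r • w) = ((φ r) ^ 4)⁻¹ * hrad h (r • w) := by
    unfold hNN
    rw [ray_norm hw hr]
  have e3 := sphAvg_trS (φ := φ) h hr
  have e4 := sphAvg_hNN (φ := φ) h hr
  have hpos : 0 < ((φ r) ^ 4)⁻¹ := by positivity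
  have hq' : qq h (r • w) = sphAvg (qq h) r := by
    rw [e1, e3] at hq
    exact mul_left_cancel₀ hpos.ne' hq
  have hfa : sphAvg (hNN φ h) r = sphAvg (fun x => f (trS φ h x)) r := sphAvg_congr hf
  have hb : sphAvg (trS φ h) r * hNN φ h (r • w) ≤
      sphAvg (trS φ h) r * sphAvg (hNN φ h) r := by
    rw [hf w hw, hq, hfa]
    rcases lt_trichotomy (sphAvg (trS φ h) r) 0 with h1 | h1 | h1
    · have h2 := jensen cT hr (hcc h1).neg
      simp only [Pi.neg_apply] at h2
      rw [sphAvg_neg' (fun x => f (trS φ h x)) r] at h2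
      exact mul_le_mul_of_nonpos_left (by linarith) h1.le
    · rw [h1]; simp
    · exact mul_le_mul_of_nonneg_left (jensen cT hr (hcv h1)) h1.le
  refine point_step hφ hr hy hw (hdec w hw) hq' ?_ ?_
  · rw [e2, e3, e4] at hb
    have h1 : (((φ r) ^ 4)⁻¹) ^ 2 * (sphAvg (qq h) r * hrad h (r • w)) ≤
        (((φ r) ^ 4)⁻¹) ^ 2 * (sphAvg (qq h) r * sphAvg (hrad h) r) := by linarith
    exact le_of_mul_le_mul_left h1 (by positivity)
  · have hmn : 0 ≤ momentumNorm (metric φ) h (r • w) := Real.sqrt_nonneg _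
    have e5 := avg_radialJ hφ H hr
    have e6 : sphAvg (qq h) r = (φ r) ^ 4 * sphAvg (trS φ h) r := by
      rw [e3]; field_simp
    have e7 : JR φ h r = (φ r) ^ 6 * sphAvg (radialJ φ h) r := by
      rw [e5]; field_simp
    rw [e6, e7]
    rcases hJ with h1 | ⟨h1, h2⟩
    · have h3 : r * ((φ r) ^ 4 * sphAvg (trS φ h) r * ((φ r) ^ 6 * sphAvg (radialJ φ h) r)) =
          (r * (φ r) ^ 10) * (sphAvg (trS φ h) r * sphAvg (radialJ φ h) r) := by ring
      rw [h3]
      have h4 := mul_nonpos_of_nonneg_of_nonpos (show 0 ≤ r * (φ r) ^ 10 by positivity) h1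
      have h5 : 0 ≤ pp φ r * (2 * (φ r) ^ 8 * momentumNorm (metric φ) h (r • w)) := by positivity
      linarith
    · rw [sphereH_eq hφ hr, le_div_iff₀ (by positivity)] at h1
      have h3 := mul_le_mul h1 (h2 w hw) (abs_nonneg _) (by positivity)
      have h4 : sphAvg (trS φ h) r * sphAvg (radialJ φ h) r ≤
          |sphAvg (trS φ h) r| * |sphAvg (radialJ φ h) r| := by
        rw [← abs_mul]
        exact le_abs_self _
      have h5 := mul_le_mul_of_nonneg_left h4 (show 0 ≤ r * (φ r) ^ 10 by positivity)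
      have h6 := mul_le_mul_of_nonneg_left h3 (show 0 ≤ (φ r) ^ 8 by positivity)
      have h7 : (φ r) ^ 8 * (|sphAvg (trS φ h) r| * ((φ r) ^ 2 * r) *
          |sphAvg (radialJ φ h) r|) =
          r * (φ r) ^ 10 * (|sphAvg (trS φ h) r| * |sphAvg (radialJ φ h) r|) := by ring
      rw [h7] at h6
      linarith

/-- Two ends. -/
theorem two_ends {φ : ℝ → ℝ} {h : E → Matrix (Fin 3) (Fin 3) ℝ} {m : ℝ}
    (hφ : Good φ) (H : Tensor h) (flat : FlatEnd φ m) (decay : Decay h)
    {r₀ r₂ : ℝ} (hr₀ : 0 < r₀) (hmin : pp φ r₀ = 0) (hout : ∀ r, r₀ < r → 0 < pp φ r)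
    (inner : ∀ x : E, r₀ < ‖x‖ → ‖x‖ ≤ r₂ → 0 ≤ scal (metric φ) x)
    (outer : ∀ r : ℝ, r₀ < r → r₂ < r → 0 ≤ GG φ h r) :
    (φ r₀) ^ 2 * r₀ ≤ 2 * m := by
  set q : ℝ → ℝ := sphAvg (qq h) with hq
  obtain ⟨C, hC⟩ := decay
  set r₃ := max r₀ r₂ with hr₃
  have h03 : r₀ ≤ r₃ := le_max_left _ _
  have h30 : 0 < r₃ := hr₀.trans_le h03
  -- the first part
  have hYY : (φ r₀) ^ 2 * r₀ ≤ YY φ r₃ := by
    have hm : MonotoneOn (YY φ) (Icc r₀ r₃) := by
      apply monotoneOn_of_deriv_nonneg (convex_Icc r₀ r₃)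
      · exact fun r hr => (hasDerivAt_YY hφ (hr₀.trans_le hr.1)
          (ray_norm e0_norm (hr₀.trans_le hr.1))).continuousAt.continuousWithinAt
      · intro r hr
        rw [interior_Icc] at hr
        exact (hasDerivAt_YY hφ (hr₀.trans hr.1)
          (ray_norm e0_norm (hr₀.trans hr.1))).differentiableAt.differentiableWithinAt
      · intro r hr
        rw [interior_Icc] at hr
        have h0 := hr₀.trans hr.1
        rw [(hasDerivAt_YY hφ h0 (ray_norm e0_norm h0)).deriv]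
        have hp := hφ.pos r h0
        have hy := hout r hr.1
        have h2 : r ≤ r₂ := by
          rcases le_total r₀ r₂ with hle | hle
          · rw [hr₃, max_eq_right hle] at hr
            exact hr.2.le
          · rw [hr₃, max_eq_left hle] at hr
            exact absurd (hr.1.trans hr.2) (lt_irrefl _)
        have hs := inner (r • (EuclideanSpace.single 0 1 : E))
          (by rw [ray_norm e0_norm h0]; exact hr.1) (by rw [ray_norm e0_norm h0]; exact h2)
        positivity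
    have h1 := hm (left_mem_Icc.2 h03) (right_mem_Icc.2 h03) h03
    have h2 : YY φ r₀ = (φ r₀) ^ 2 * r₀ := by
      unfold YY
      rw [hmin]
      ring
    rwa [h2] at h1
  have hFY : YY φ r₃ ≤ FF φ q r₃ := by
    unfold FF
    have hp := hφ.pos r₃ h30
    have : 0 ≤ r₃ ^ 3 * (q r₃) ^ 2 / (4 * (φ r₃) ^ 2) := by positivity
    linarith
  -- the second part
  have hFm := mono_of_deriv (f := FF φ q) (f' := fun r => r ^ 2 / (2 * (φ r) ^ 2) * GG φ h r)
    (r₀ := r₃)
    (fun r hr => (FFavg_hasDerivAt hφ H (h30.trans_le hr)).continuousAt)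
    (fun r hr => FFavg_hasDerivAt hφ H (h30.trans hr))
    (fun r hr => by
      have h0 := h30.trans hr
      have hp := hφ.pos r h0
      have h1 : r₀ < r := h03.trans_lt hr
      have h2 : r₂ < r := (le_max_right _ _).trans_lt hr
      exact mul_nonneg (by positivity) (outer r h1 h2))
  have hbq : ∀ r : ℝ, 1 ≤ r → |q r| ≤ 12 * C / r ^ 2 := fun r hr =>
    sphAvg_bound H.qq_smooth.continuousOn (by linarith) (fun w hw => by
      have h0 : 0 < r := by linarith
      have h2 := hC (r • w) (by rw [ray_norm hw h0]; exact hr)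
      rw [ray_norm hw h0] at h2
      calc |qq h (r • w)| ≤ 12 * (C / r ^ 2) := qq_bound (ray_ne hw h0) h2
        _ = 12 * C / r ^ 2 := by ring)
  have hlim : Tendsto (FF φ q) atTop (𝓝 (2 * m)) := by
    have h1 := (flat.YY hφ).add (tendsto_sq_term flat.one hbq)
    rw [add_zero] at h1
    exact h1
  have hfin := ge_of_tendsto hlim (by
    filter_upwards [eventually_ge_atTop r₃] with r hr
    exact hFm r hr)
  linarith

end Pool.Agent.J4.H92.PI
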