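import Pool.Agent.J4.H92.PI.LinMain

/-!
# Linear momentum: the conditions on a sphere in terms of the momentum density
-/

set_option autoImplicit false

namespace Pool.Agent.J4.H92.PI

open Pool.Agent.K4H63.PI
open scoped BigOperators Topology
open Matrix Filter Set MeasureTheory

/-- The component `J(ν)` of the momentum density, `ν` the unit normal of the centred spheres in
the metric `φ⁴ δ`. -/
noncomputable def radialJ (φ : ℝ → ℝ) (h : E → Matrix (Fin 3) (Fin 3) ℝ) (x : E) : ℝ :=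
  ((φ ‖x‖) ^ 2)⁻¹ * ∑ k, momentum (metric φ) h k x * (x k / ‖x‖)

/-- `y = ρ H / 2`, where `ρ = φ² r` and `H` are the area radius and the mean curvature of the
centred sphere of radius `r`. -/
noncomputable def halfRH (φ : ℝ → ℝ) (r : ℝ) : ℝ := (φ r) ^ 2 * r * sphereH φ r / 2

/-- The vector field along the centred spheres whose tangential part is `y` times the tangential
part of the constant vector `B`, and whose normal part is that of `B`. -/
noncomputable def shiftField (φ : ℝ → ℝ) (B : Fin 3 → ℝ) (k : Fin 3) (x : E) : ℝ :=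
  halfRH φ ‖x‖ * (B k - (∑ j, B j * (x j / ‖x‖)) * (x k / ‖x‖)) +
    (∑ j, B j * (x j / ‖x‖)) * (x k / ‖x‖)

/-- `J(Y)` for `Y = shiftField φ B`. -/
noncomputable def shiftJ (φ : ℝ → ℝ) (h : E → Matrix (Fin 3) (Fin 3) ℝ) (B : Fin 3 → ℝ)
    (x : E) : ℝ := ∑ k, momentum (metric φ) h k x * shiftField φ B k x

/-- The average over the centred sphere of the vector `h(x/|x|, ·)ᵀ` (tangential part). -/
noncomputable def beta (h : E → Matrix (Fin 3) (Fin 3) ℝ) (r : ℝ) (j : Fin 3) : ℝ :=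
  sphAvg (mixed h j) r

theorem halfRH_eq {φ : ℝ → ℝ} (hφ : Good φ) {r : ℝ} (hr : 0 < r) : halfRH φ r = pp φ r := by
  have hp := hφ.pos _ hr
  unfold halfRH
  rw [sphereH_eq hφ hr]
  field_simp

theorem avg_radialJ {φ : ℝ → ℝ} (hφ : Good φ) {h : E → Matrix (Fin 3) (Fin 3) ℝ} (H : Tensor h)
    {r : ℝ} (hr : 0 < r) : sphAvg (radialJ φ h) r = ((φ r) ^ 6)⁻¹ * JR φ h r := by
  have hp := hφ.pos _ hr
  unfold JR
  rw [← sphAvg_mul]
  refine sphAvg_congr fun w hw => ?_
  have hx := ray_ne hw hr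
  unfold radialJ un
  simp only [momentum_eq hφ H hx, ray_norm hw hr, Fin.sum_univ_three]
  field_simp

theorem avg_shiftJ {φ : ℝ → ℝ} (hφ : Good φ) {h : E → Matrix (Fin 3) (Fin 3) ℝ} (H : Tensor h)
    {r : ℝ} (hr : 0 < r) : sphAvg (shiftJ φ h (beta h r)) r = ((φ r) ^ 4)⁻¹ * BJ φ h r := by
  have hp := hφ.pos _ hr
  have cJT : ∀ j, ContinuousOn (fun x => beta h r j * JT φ h (pp φ r) j x) {0}ᶜ := fun j =>
    continuousOn_const.mul (JT_cont hφ H _ j)
  have e2 : BJ φ h r = sphAvg (fun x => ∑ j, beta h r j * JT φ h (pp φ r) j x) r := by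
    rw [sphAvg_sum cJT hr]
    unfold BJ
    refine Finset.sum_congr rfl fun j _ => ?_
    rw [sphAvg_mul]
    rfl
  rw [e2, ← sphAvg_mul]
  refine sphAvg_congr fun w hw => ?_
  have hx := ray_ne hw hr
  unfold shiftJ shiftField JT un
  simp only [momentum_eq hφ H hx, ray_norm hw hr, Fin.sum_univ_three, halfRH_eq hφ hr]
  ring

theorem sphereCond_of {φ : ℝ → ℝ} (hφ : Good φ) {h : E → Matrix (Fin 3) (Fin 3) ℝ}
    (H : Tensor h) {r : ℝ} (hr : 0 < r)
    (hc : ∃ c, ∀ w : E, ‖w‖ = 1 → trS φ h (r • w) = c)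
    (hJ : sphAvg (trS φ h) r * sphAvg (radialJ φ h) r ≤ 0 ∨
      sphAvg (shiftJ φ h (beta h r)) r ≤ 0) : SphereCond φ h r := by
  have hp := hφ.pos _ hr
  refine ⟨hc, ?_⟩
  rcases hJ with hA | hB
  · left
    rw [sphAvg_trS h hr, avg_radialJ hφ H hr] at hA
    have e : ((φ r) ^ 4)⁻¹ * sphAvg (qq h) r * (((φ r) ^ 6)⁻¹ * JR φ h r) =
        ((φ r) ^ 10)⁻¹ * (sphAvg (qq h) r * JR φ h r) := by
      field_simp
    rw [e] at hA
    by_contra hcon
    push Not at hcon
    have : 0 < ((φ r) ^ 10)⁻¹ * (sphAvg (qq h) r * JR φ h r) := by positivity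
    linarith
  · right
    rw [avg_shiftJ hφ H hr] at hB
    by_contra hcon
    push Not at hcon
    have : 0 < ((φ r) ^ 4)⁻¹ * BJ φ h r := by positivity
    linarith

end Pool.Agent.J4.H92.PI
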