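import Pool.Agent.J4.H92.PI.Max4
import Pool.Agent.J4.H92.PI.LinNat

/-!
# Arbitrary `h` where the scalar curvature is negative: Jensen's inequality on the spheres
-/

set_option autoImplicit false

namespace Pool.Agent.J4.H92.PI

open Pool.Agent.K4H63.PI
open scoped BigOperators Topology
open Matrix Filter Set MeasureTheory

/-- `JJ` in the radial direction. -/
noncomputable def Jn (φ : ℝ → ℝ) (h : E → Matrix (Fin 3) (Fin 3) ℝ) (x : E) : ℝ :=
  ∑ k, un k x * JJ φ h k x

theorem Jn_cont {φ : ℝ → ℝ} (hφ : Good φ) {h : E → Matrix (Fin 3) (Fin 3) ℝ} (H : Tensor h) :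
    ContinuousOn (Jn φ h) {0}ᶜ := radJJ_cont hφ H

/-- The dominant energy condition at one point. -/
theorem dec_point {φ : ℝ → ℝ} (hφ : Good φ) {h : E → Matrix (Fin 3) (Fin 3) ℝ} (H : Tensor h)
    {x : E} (hx : x ≠ 0) (hdec : momentumNorm (metric φ) h x ≤ energy (metric φ) h x) :
    2 * (φ ‖x‖) ^ 2 * |Jn φ h x| ≤ (φ ‖x‖) ^ 8 * scal (metric φ) x +
      2 * hrad h x * qq h x + (qq h x) ^ 2 / 2 := by
  have hs : ∑ i, (un i x) ^ 2 = 1 := sum_unit hx
  have h1 := dec_test hφ H hx hdec (V := fun i => un i x) hs.le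
  have h2 := dec_test hφ H hx hdec (V := fun i => -(un i x)) (by simpa using hs.le)
  have h3 := transverse_nonneg h hx
  have e : ∑ i, -(un i x) * JJ φ h i x = -(Jn φ h x) := by
    unfold Jn
    rw [← Finset.sum_neg_distrib]
    exact Finset.sum_congr rfl fun i _ => by ring
  rw [e] at h2
  have e1 : ∑ i, un i x * JJ φ h i x = Jn φ h x := rfl
  rw [e1] at h1
  rcases abs_cases (Jn φ h x) with ⟨h4, _⟩ | ⟨h4, _⟩ <;> rw [h4] <;> linarith

/-- Where the scalar curvature is negative, `tr_S h` does not vanish. -/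
theorem qq_ne_zero {φ : ℝ → ℝ} (hφ : Good φ) {h : E → Matrix (Fin 3) (Fin 3) ℝ} (H : Tensor h)
    {x : E} (hx : x ≠ 0) (hdec : momentumNorm (metric φ) h x ≤ energy (metric φ) h x)
    (hs : scal (metric φ) x < 0) : qq h x ≠ 0 := by
  intro h0
  have h1 := dec_point hφ H hx hdec
  rw [h0] at h1
  have hp := hφ.pos _ (norm_pos_iff.2 hx)
  have h2 : (φ ‖x‖) ^ 8 * scal (metric φ) x < 0 := mul_neg_of_pos_of_neg (by positivity) hs
  have h3 : 0 ≤ 2 * (φ ‖x‖) ^ 2 * |Jn φ h x| := by positivity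
  linarith

/-- A continuous function without zeros on a centred sphere has one sign. -/
theorem one_sign {F : E → ℝ} (hF : ContinuousOn F {0}ᶜ) {r : ℝ} (hr : 0 < r)
    (h0 : ∀ w : E, ‖w‖ = 1 → F (r • w) ≠ 0) :
    (∀ w : E, ‖w‖ = 1 → 0 < F (r • w)) ∨ (∀ w : E, ‖w‖ = 1 → F (r • w) < 0) := by
  have hconn : IsPreconnected (Metric.sphere (0 : E) 1) := by
    refine isPreconnected_sphere ?_ 0 1
    rw [← Module.finrank_eq_rank]
    simp
  set f : E → ℝ := fun w => F (r • w) with hf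
  have hc : ContinuousOn f (Metric.sphere (0 : E) 1) := by
    refine hF.comp (continuous_const_smul r).continuousOn ?_
    intro w hw
    exact ray_ne (mem_sphere_zero_iff_norm.1 hw) hr
  by_contra hcon
  push Not at hcon
  obtain ⟨⟨a, ha, ha0⟩, ⟨b, hb, hb0⟩⟩ := hcon
  have h1 := hconn.intermediate_value (mem_sphere_zero_iff_norm.2 ha)
    (mem_sphere_zero_iff_norm.2 hb) hc
  obtain ⟨c, hc1, hc2⟩ := h1 (show (0:ℝ) ∈ Icc (f a) (f b) from ⟨ha0, hb0⟩)
  exact h0 c (mem_sphere_zero_iff_norm.1 hc1) hc2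

/-- The pointwise inequality. -/
theorem tangent_line {y r P2 K a q J u : ℝ} (hy : 0 ≤ y) (hK : 0 ≤ K)
    (hqu : 0 < q * u) (hE : P2 * |J| ≤ -K + 2 * a * q + q ^ 2 / 2)
    (hJ : r * (q * J) ≤ y * (P2 * |J|)) :
    0 ≤ u * (2 * y * a - (y * K * (2 / u - q / u ^ 2) - y * q / 2 + r * J)) := by
  have hq : q ≠ 0 := by rintro rfl; simp at hqu
  have hu : u ≠ 0 := by rintro rfl; simp at hqu
  have h1 : 0 ≤ q * (2 * y * a - (y * K * (2 / u - q / u ^ 2) - y * q / 2 + r * J)) := by
    have e : q * (2 * y * a - (y * K * (2 / u - q / u ^ 2) - y * q / 2 + r * J)) =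
        y * (-K + 2 * a * q + q ^ 2 / 2) + y * K * (1 - q / u) ^ 2 - r * (q * J) := by
      field_simp
      ring
    rw [e]
    have h2 := mul_le_mul_of_nonneg_left hE hy
    have h3 : 0 ≤ y * K * (1 - q / u) ^ 2 := by positivity
    linarith
  have h4 : 0 ≤ (q * u) * (u * (2 * y * a - (y * K * (2 / u - q / u ^ 2) - y * q / 2 + r * J))) := by
    have : (q * u) * (u * (2 * y * a - (y * K * (2 / u - q / u ^ 2) - y * q / 2 + r * J))) =
        u ^ 2 * (q * (2 * y * a - (y * K * (2 / u - q / u ^ 2) - y * q / 2 + r * J))) := by ring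
    rw [this]
    positivity
  exact nonneg_of_mul_nonneg_right h4 hqu

/-- The averaged inequality. -/
theorem jensen_step {φ : ℝ → ℝ} (hφ : Good φ) {h : E → Matrix (Fin 3) (Fin 3) ℝ} (H : Tensor h)
    {r : ℝ} (hr : 0 < r) (hy : 0 ≤ pp φ r)
    (hdec : ∀ w : E, ‖w‖ = 1 →
      momentumNorm (metric φ) h (r • w) ≤ energy (metric φ) h (r • w))
    (hS : scal (metric φ) (r • (EuclideanSpace.single 0 1 : E)) ≤ 0)
    (h0 : ∀ w : E, ‖w‖ = 1 → qq h (r • w) ≠ 0)
    (hJ : ∀ w : E, ‖w‖ = 1 → r * (qq h (r • w) * Jn φ h (r • w)) ≤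
      pp φ r * (2 * (φ r) ^ 2 * |Jn φ h (r • w)|)) :
    0 ≤ pp φ r * ((φ r) ^ 8 * scal (metric φ) (r • (EuclideanSpace.single 0 1 : E)) +
      2 * sphAvg (qq h) r * sphAvg (hrad h) r + (sphAvg (qq h) r) ^ 2 / 2) -
      r * sphAvg (qq h) r * JR φ h r := by
  have hp := hφ.pos r hr
  have cA := H.hrad_smooth.continuousOn
  have cQ := H.qq_smooth.continuousOn
  have cJ := Jn_cont hφ H
  set S := scal (metric φ) (r • (EuclideanSpace.single 0 1 : E)) with hSd
  set y := pp φ r with hyd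
  set u := sphAvg (qq h) r with hud
  set K := -((φ r) ^ 8 * S) with hK
  have hK0 : 0 ≤ K := by
    have := mul_nonpos_of_nonneg_of_nonpos (show 0 ≤ (φ r) ^ 8 by positivity) hS
    rw [hK]; linarith
  -- `u` has the sign of `q`
  have hsgn : (∀ w : E, ‖w‖ = 1 → 0 < qq h (r • w) * u) := by
    -- the minimum of `|q|` is positive
    have hcomp : IsCompact (Metric.sphere (0 : E) 1) := isCompact_sphere 0 1
    have hne : (Metric.sphere (0 : E) 1).Nonempty :=
      ⟨EuclideanSpace.single 0 1, mem_sphere_zero_iff_norm.2 e0_norm⟩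
    have hc : ContinuousOn (fun w : E => qq h (r • w)) (Metric.sphere (0 : E) 1) := by
      refine cQ.comp (continuous_const_smul r).continuousOn ?_
      intro w hw
      exact ray_ne (mem_sphere_zero_iff_norm.1 hw) hr
    rcases one_sign cQ hr h0 with hpos | hneg
    · obtain ⟨w₀, hw₀, hmin⟩ := hcomp.exists_isMinOn hne hc
      have hm := hpos w₀ (mem_sphere_zero_iff_norm.1 hw₀)
      have h1 := sphAvg_mono (F := fun _ => qq h (r • w₀)) (G := qq h) (r := r)
        continuousOn_const cQ hr (fun w hw => hmin (mem_sphere_zero_iff_norm.2 hw))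
      rw [sphAvg_const] at h1
      exact fun w hw => mul_pos (hpos w hw) (hm.trans_le h1)
    · obtain ⟨w₀, hw₀, hmax⟩ := hcomp.exists_isMaxOn hne hc
      have hm := hneg w₀ (mem_sphere_zero_iff_norm.1 hw₀)
      have h1 := sphAvg_mono (F := qq h) (G := fun _ => qq h (r • w₀)) (r := r)
        cQ continuousOn_const hr (fun w hw => hmax (mem_sphere_zero_iff_norm.2 hw))
      rw [sphAvg_const] at h1
      exact fun w hw => mul_pos_of_neg_of_neg (hneg w hw) (h1.trans_lt hm)
  have hu : u ≠ 0 := by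
    intro hu0
    have := hsgn _ e0_norm
    rw [hu0, mul_zero] at this
    exact lt_irrefl _ this
  have hpt : ∀ w : E, ‖w‖ = 1 → 0 ≤ u * (2 * y * hrad h (r • w) - (y * K * (2 / u -
      qq h (r • w) / u ^ 2) - y * qq h (r • w) / 2 + r * Jn φ h (r • w))) := by
    intro w hw
    have hx := ray_ne hw hr
    have hE := dec_point hφ H hx (hdec w hw)
    have hs : scal (metric φ) (r • w) = S := by
      rw [hSd, scal_metric hφ hx, scal_metric hφ (ray_ne e0_norm hr), ray_norm hw hr,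
        ray_norm e0_norm hr]
    rw [ray_norm hw hr, hs] at hE
    refine tangent_line (P2 := 2 * (φ r) ^ 2) hy hK0 (hsgn w hw) ?_ (hJ w hw)
    rw [hK]
    linarith
  have c1 : ContinuousOn (fun x => u * (2 * y) * hrad h x) {0}ᶜ := continuousOn_const.mul cA
  have c2 : ContinuousOn (fun x => (y * K / u + u * y / 2) * qq h x) {0}ᶜ :=
    continuousOn_const.mul cQ
  have c3 : ContinuousOn (fun x => u * r * Jn φ h x) {0}ᶜ := continuousOn_const.mul cJ
  have hav := sphAvg_mono (r := r) (F := fun _ => 2 * y * K)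
    (G := fun x => (u * (2 * y) * hrad h x + (y * K / u + u * y / 2) * qq h x) -
      u * r * Jn φ h x) continuousOn_const ((c1.add c2).sub c3) hr
    (fun w hw => by
      have h1 := hpt w hw
      have e : u * (2 * y * hrad h (r • w) - (y * K * (2 / u -
          qq h (r • w) / u ^ 2) - y * qq h (r • w) / 2 + r * Jn φ h (r • w))) =
          (u * (2 * y) * hrad h (r • w) + (y * K / u + u * y / 2) * qq h (r • w)) -
            u * r * Jn φ h (r • w) - 2 * y * K := by
        field_simp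
        ring
      rw [e] at h1
      linarith)
  rw [sphAvg_const, sphAvg_sub (F := fun x => u * (2 * y) * hrad h x +
      (y * K / u + u * y / 2) * qq h x) (c1.add c2) c3 hr,
    sphAvg_add (F := fun x => u * (2 * y) * hrad h x) c1 c2 hr, sphAvg_mul, sphAvg_mul,
    sphAvg_mul] at hav
  have e1 : sphAvg (Jn φ h) r = JR φ h r := rfl
  rw [e1, ← hud] at hav
  have e2 : (y * K / u + u * y / 2) * u = y * K + u ^ 2 * y / 2 := by
    field_simp
  rw [e2] at hav
  rw [hK] at hav
  linarith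

/-- The derivative of `FF` with the average of `tr_S h`. -/
theorem FFavg_hasDerivAt {φ : ℝ → ℝ} (hφ : Good φ) {h : E → Matrix (Fin 3) (Fin 3) ℝ}
    (H : Tensor h) {r : ℝ} (hr : 0 < r) :
    HasDerivAt (FF φ (sphAvg (qq h))) (r ^ 2 / (2 * (φ r) ^ 2) *
      (pp φ r * ((φ r) ^ 8 * scal (metric φ) (r • (EuclideanSpace.single 0 1 : E)) +
      2 * sphAvg (qq h) r * sphAvg (hrad h) r + (sphAvg (qq h) r) ^ 2 / 2) -
      r * sphAvg (qq h) r * JR φ h r)) r := by
  have h1 := hasDerivAt_FF hφ hr (ray_norm e0_norm hr) (sphAvg_hasDerivAt H.qq_smooth hr)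
  refine h1.congr_deriv ?_
  rw [JR_eq hφ H hr]
  unfold pp
  field_simp
  ring

end Pool.Agent.J4.H92.PI
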