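import Pool.Agent.J4.H92.PI.Test

/-!
# Linear momentum: the quasilocal rest mass is nondecreasing
-/

set_option autoImplicit false

namespace Pool.Agent.J4.H92.PI

open Pool.Agent.K4H63.PI
open scoped BigOperators Topology
open Matrix Filter Set MeasureTheory

/-- The ADM momentum integral `(8 π)⁻¹ ∫_{|x| = r} (h_{ij} - (tr h) g_{ij}) ν^j dA`. -/
noncomputable def momentumFlux (G h : E → Matrix (Fin 3) (Fin 3) ℝ) (i : Fin 3) (r : ℝ) : ℝ :=
  (8 * Real.pi)⁻¹ * (r ^ 2 * ∫ ω, ∑ j, (h (r • (ω : E)) - trg G h (r • (ω : E)) •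
    G (r • (ω : E))) i j * (ω : E) j ∂sph)

theorem momentumFlux_eq {φ : ℝ → ℝ} (hφ : Good φ) {h : E → Matrix (Fin 3) (Fin 3) ℝ}
    (H : Tensor h) {r q : ℝ} (hr : 0 < r) (hq : ∀ w : E, ‖w‖ = 1 → qq h (r • w) = q)
    (i : Fin 3) : momentumFlux (metric φ) h i r = r ^ 2 / 2 * sphAvg (mixed h i) r := by
  have hp := hφ.pos r hr
  have hpi := Real.pi_ne_zero
  have e1 : momentumFlux (metric φ) h i r = r ^ 2 / 2 *
      sphAvg (fun x => ∑ j, (h x - trg (metric φ) h x • metric φ x) i j * (x j / ‖x‖)) r := by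
    unfold momentumFlux sphAvg
    have : ∀ ω : Metric.sphere (0 : E) 1,
        (∑ j, (h (r • (ω : E)) - trg (metric φ) h (r • (ω : E)) • metric φ (r • (ω : E))) i j *
          ((r • (ω : E)) j / ‖r • (ω : E)‖)) =
        ∑ j, (h (r • (ω : E)) - trg (metric φ) h (r • (ω : E)) • metric φ (r • (ω : E))) i j *
          (ω : E) j := by
      intro ω
      refine Finset.sum_congr rfl fun j _ => ?_
      rw [ray_norm (sphere_norm ω) hr, PiLp.smul_apply, smul_eq_mul]
      field_simp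
    simp only [this]
    field_simp
    ring
  rw [e1]
  congr 1
  have cM := (mixed_contDiffOn H i).continuousOn
  have e2 : ∀ w : E, ‖w‖ = 1 →
      (∑ j, (h (r • w) - trg (metric φ) h (r • w) • metric φ (r • w)) i j *
        ((r • w) j / ‖r • w‖)) = mixed h i (r • w) - q * un i (r • w) := by
    intro w hw
    have hx := ray_ne hw hr
    have hp' : φ ‖r • w‖ ≠ 0 := by rw [ray_norm hw hr]; exact hp.ne'
    have hq1 := hq w hw
    have hsum : ∀ j, (h (r • w) - trg (metric φ) h (r • w) • metric φ (r • w)) i j *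
        ((r • w) j / ‖r • w‖) = h (r • w) i j * ((r • w) j / ‖r • w‖) -
          tr0 h (r • w) * (kd i j * ((r • w) j / ‖r • w‖)) := by
      intro j
      rw [trace_reversed h hp' i j]
      ring
    simp only [hsum]
    rw [Finset.sum_sub_distrib, ← Finset.mul_sum]
    have hk : ∑ j, kd i j * ((r • w) j / ‖r • w‖) = un i (r • w) := by
      rw [Finset.sum_eq_single i (fun j _ hij => by simp [kd, Ne.symm hij]) (by simp)]
      simp [kd, un]
    rw [hk]
    unfold qq at hq1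
    unfold mixed un
    rw [← hq1]
    ring
  have cq : ContinuousOn (fun x => q * un i x) {0}ᶜ := continuousOn_const.mul (un_cont i)
  rw [sphAvg_congr (G := fun x => mixed h i x - q * un i x) e2, sphAvg_sub cM cq hr,
    sphAvg_mul, sphAvg_un i hr]
  ring

/-- The averaged quadratic terms, when `tr_S h` is constant. -/
theorem MM_eq {φ : ℝ → ℝ} {h : E → Matrix (Fin 3) (Fin 3) ℝ}
    (H : Tensor h) {r q : ℝ} (hr : 0 < r) (hq : ∀ w : E, ‖w‖ = 1 → qq h (r • w) = q) :
    MM φ h r + sphAvg (transverse h) r =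
      (φ r) ^ 8 * scal (metric φ) (r • (EuclideanSpace.single 0 1 : E)) +
        2 * q * sphAvg (hrad h) r + q ^ 2 / 2 := by
  have cA := H.hrad_smooth.continuousOn
  have cN := H.transverse_cont
  unfold MM
  have c1 : ContinuousOn (fun x => 2 * q * hrad h x + q ^ 2 / 2) {0}ᶜ :=
    (continuousOn_const.mul cA).add continuousOn_const
  rw [sphAvg_congr (F := fun x => 2 * hrad h x * qq h x + (qq h x) ^ 2 / 2 - transverse h x)
    (G := fun x => (2 * q * hrad h x + q ^ 2 / 2) - transverse h x) (fun w hw => by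
      rw [hq w hw]; ring), sphAvg_sub c1 cN hr,
    sphAvg_add (F := fun x => 2 * q * hrad h x) (G := fun _ => q ^ 2 / 2)
      (continuousOn_const.mul cA) continuousOn_const hr, sphAvg_mul, sphAvg_const]
  ring

theorem avg_of_const {F : E → ℝ} {r q : ℝ} (hq : ∀ w : E, ‖w‖ = 1 → F (r • w) = q) :
    sphAvg F r = q := by
  rw [sphAvg_congr (G := fun _ => q) hq, sphAvg_const]

/-- The derivative of twice the mass function. -/
theorem FF_deriv {φ : ℝ → ℝ} (hφ : Good φ) {h : E → Matrix (Fin 3) (Fin 3) ℝ}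
    (H : Tensor h) {r q : ℝ} (hr : 0 < r) (hq : ∀ w : E, ‖w‖ = 1 → qq h (r • w) = q) :
    HasDerivAt (FF φ (sphAvg (qq h))) (r ^ 2 / (2 * (φ r) ^ 2) *
      (pp φ r * (MM φ h r + sphAvg (transverse h) r) - r * q * JR φ h r)) r := by
  have hq0 : sphAvg (qq h) r = q := avg_of_const hq
  have h1 := hasDerivAt_FF hφ hr (ray_norm e0_norm hr)
    (sphAvg_hasDerivAt H.qq_smooth hr)
  refine h1.congr_deriv ?_
  rw [MM_eq H hr hq, JR_eq hφ H hr, hq0]
  unfold pp
  field_simp
  ring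

/-- The condition on the sphere of radius `r`. -/
def SphereCond (φ : ℝ → ℝ) (h : E → Matrix (Fin 3) (Fin 3) ℝ) (r : ℝ) : Prop :=
  (∃ c, ∀ w : E, ‖w‖ = 1 → trS φ h (r • w) = c) ∧
    (sphAvg (qq h) r * JR φ h r ≤ 0 ∨ BJ φ h r ≤ 0)

theorem lin_theorem {φ : ℝ → ℝ} {h : E → Matrix (Fin 3) (Fin 3) ℝ} {m : ℝ} {P : Fin 3 → ℝ}
    (hφ : Good φ) (H : Tensor h) (flat : FlatEnd φ m) (decay : Decay h)
    (mom : ∀ i, Tendsto (momentumFlux (metric φ) h i) atTop (𝓝 (P i))) {r₁ : ℝ} (hr₁ : 0 < r₁)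
    (dec : ∀ x : E, r₁ ≤ ‖x‖ → momentumNorm (metric φ) h x ≤ energy (metric φ) h x)
    (cond : ∀ r : ℝ, r₁ ≤ r → (∀ w : E, ‖w‖ = 1 → |trS φ h (r • w)| ≤ sphereH φ r) →
      SphereCond φ h r)
    (trapped : ∃ w : E, ‖w‖ = 1 ∧ sphereH φ r₁ ≤ |trS φ h (r₁ • w)|) :
    ∃ r₀, r₁ ≤ r₀ ∧ Real.sqrt (sphereArea φ r₀ / (16 * Real.pi)) ≤
      Real.sqrt (m ^ 2 - ∑ i, P i ^ 2) := by
  obtain ⟨C, hC⟩ := decay
  have hbdw : ∀ r : ℝ, 1 ≤ r → ∀ w : E, ‖w‖ = 1 → |qq h (r • w)| ≤ 12 * C / r ^ 2 := by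
    intro r hr w hw
    have h0 : 0 < r := by linarith
    have h2 := hC (r • w) (by rw [ray_norm hw h0]; exact hr)
    rw [ray_norm hw h0] at h2
    calc |qq h (r • w)| ≤ 12 * (C / r ^ 2) := qq_bound (ray_ne hw h0) h2
      _ = 12 * C / r ^ 2 := by ring
  have hbd : ∀ r : ℝ, 1 ≤ r → |peak h r| ≤ 12 * C / r ^ 2 := by
    intro r hr
    have h0 : 0 < r := by linarith
    obtain ⟨⟨w, hw, h1⟩, _⟩ := peak_spec H h0
    rw [h1, abs_abs]
    exact hbdw r hr w hw
  have hpk0 : ∀ r, 0 < r → 0 ≤ peak h r := by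
    intro r hr
    obtain ⟨⟨w, hw, h1⟩, _⟩ := peak_spec H hr
    rw [h1]; exact abs_nonneg _
  have hS : ∀ r : ℝ, 0 < r → ∀ w : E, ‖w‖ = 1 → (|trS φ h (r • w)| * ((φ r) ^ 4 * r) =
      r * |qq h (r • w)| ∧ sphereH φ r * ((φ r) ^ 4 * r) = 2 * (φ r) ^ 2 * pp φ r) := by
    intro r hr w hw
    have hp := hφ.pos r hr
    constructor
    · unfold trS
      rw [ray_norm hw hr, abs_mul, abs_of_pos (show (0:ℝ) < ((φ r) ^ 4)⁻¹ by positivity)]
      field_simp
    · rw [sphereH_eq hφ hr]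
      field_simp
  obtain ⟨r₀, h10, h0eq, hgt⟩ := last_trapped hφ (q := peak h) hr₁
    (fun r hr => peak_continuousAt H hr)
    (by
      obtain ⟨w, hw, ht⟩ := trapped
      obtain ⟨u1, u2⟩ := hS r₁ hr₁ w hw
      have hp := hφ.pos r₁ hr₁
      rw [← u2, abs_mul, abs_of_pos hr₁, abs_of_nonneg (hpk0 r₁ hr₁)]
      refine (mul_le_mul_of_nonneg_right ht (by positivity)).trans ?_
      rw [u1]
      exact mul_le_mul_of_nonneg_left ((peak_spec H hr₁).2 w hw) hr₁.le)
    (flat.pp hφ) (tendsto_X flat.one hbd)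
  have h00 : 0 < r₀ := hr₁.trans_le h10
  have hge : ∀ r, r₀ ≤ r → r * peak h r ≤ 2 * (φ r) ^ 2 * pp φ r := by
    intro r hr
    have h0 := h00.trans_le hr
    rcases eq_or_lt_of_le hr with he | hlt
    · rw [← he, h0eq, abs_mul, abs_of_pos h00, abs_of_nonneg (hpk0 r₀ h00)]
    · have := hgt r hlt
      rw [abs_mul, abs_of_pos h0, abs_of_nonneg (hpk0 r h0)] at this
      exact this.le
  have hcond : ∀ r, r₀ ≤ r → SphereCond φ h r := by
    intro r hr
    have h0 := h00.trans_le hr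
    have hp := hφ.pos r h0
    refine cond r (h10.trans hr) fun w hw => ?_
    obtain ⟨u1, u2⟩ := hS r h0 w hw
    refine le_of_mul_le_mul_right ?_ (show 0 < (φ r) ^ 4 * r by positivity)
    rw [u1, u2]
    exact (mul_le_mul_of_nonneg_left ((peak_spec H h0).2 w hw) h0.le).trans (hge r hr)
  set q : ℝ → ℝ := sphAvg (qq h) with hqdef
  have hq : ∀ r, r₀ ≤ r → ∀ w : E, ‖w‖ = 1 → qq h (r • w) = q r := by
    intro r hr
    have h0 := h00.trans_le hr
    have hp := hφ.pos r h0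
    obtain ⟨⟨c, hc⟩, _⟩ := hcond r hr
    have h1 : ∀ w : E, ‖w‖ = 1 → qq h (r • w) = (φ r) ^ 4 * c := by
      intro w hw
      have := hc w hw
      unfold trS at this
      rw [ray_norm hw h0] at this
      rw [← this]
      field_simp
    intro w hw
    rw [h1 w hw, hqdef, avg_of_const h1]
  have hqpk : ∀ r, r₀ ≤ r → |q r| = peak h r := by
    intro r hr
    have h0 := h00.trans_le hr
    obtain ⟨⟨w, hw, h1⟩, _⟩ := peak_spec H h0
    rw [h1, hq r hr w hw]
  have hqu : ∀ r, r₀ ≤ r → |r * q r| ≤ 2 * (φ r) ^ 2 * pp φ r := by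
    intro r hr
    rw [abs_mul, abs_of_pos (h00.trans_le hr), hqpk r hr]
    exact hge r hr
  have hdec : ∀ r, r₀ ≤ r → ∀ w : E, ‖w‖ = 1 →
      momentumNorm (metric φ) h (r • w) ≤ energy (metric φ) h (r • w) := by
    intro r hr w hw
    refine dec _ ?_
    rw [ray_norm hw (h00.trans_le hr)]
    exact h10.trans hr
  have hFd : ∀ r, r₀ ≤ r → HasDerivAt (FF φ q) (r ^ 2 / (2 * (φ r) ^ 2) *
      (pp φ r * (MM φ h r + sphAvg (transverse h) r) - r * q r * JR φ h r)) r :=
    fun r hr => FF_deriv hφ H (h00.trans_le hr) (hq r hr)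
  have hyM : ∀ r, r₀ ≤ r → |r * q r * JR φ h r| ≤ pp φ r * MM φ h r := by
    intro r hr
    have h0 := h00.trans_le hr
    have hp := hφ.pos r h0
    have h1 := JR_le hφ H h0 (hdec r hr)
    have h2 := mul_le_mul (hqu r hr) h1 (by positivity) ((abs_nonneg _).trans (hqu r hr))
    have h3 : |r * q r| * (2 * (φ r) ^ 2 * |JR φ h r|) =
        2 * (φ r) ^ 2 * |r * q r * JR φ h r| := by
      rw [abs_mul (r * q r)]
      ring
    rw [h3] at h2
    have h4 : (0:ℝ) < 2 * (φ r) ^ 2 := by positivity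
    have h5 : 2 * (φ r) ^ 2 * |r * q r * JR φ h r| ≤ 2 * (φ r) ^ 2 * (pp φ r * MM φ h r) := by
      refine h2.trans (le_of_eq ?_)
      ring
    exact le_of_mul_le_mul_left h5 h4
  have hy0 : ∀ r, r₀ ≤ r → 0 ≤ pp φ r := by
    intro r hr
    have hp := hφ.pos r (h00.trans_le hr)
    have := (abs_nonneg _).trans (hqu r hr)
    exact nonneg_of_mul_nonneg_right this (by positivity)
  have hN : ∀ r, r₀ ≤ r → 3 * B2 h r ≤ sphAvg (transverse h) r := fun r hr =>
    avg_transverse_ge H (h00.trans_le hr)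
  have hB0 : ∀ r, 0 ≤ B2 h r := fun r => Finset.sum_nonneg fun _ _ => sq_nonneg _
  have hN0 : ∀ r, r₀ ≤ r → 0 ≤ sphAvg (transverse h) r := fun r hr =>
    (mul_nonneg (by norm_num) (hB0 r)).trans (hN r hr)
  -- the mass function is nondecreasing
  have hFmono : ∀ r, r₀ ≤ r → FF φ q r₀ ≤ FF φ q r := by
    intro b hb
    have : MonotoneOn (FF φ q) (Icc r₀ b) := by
      apply monotoneOn_of_deriv_nonneg (convex_Icc r₀ b)
      · exact fun r hr => (hFd r hr.1).continuousAt.continuousWithinAt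
      · intro r hr
        rw [interior_Icc] at hr
        exact (hFd r hr.1.le).differentiableAt.differentiableWithinAt
      · intro r hr
        rw [interior_Icc] at hr
        rw [(hFd r hr.1.le).deriv]
        have h0 := h00.trans hr.1
        have hp := hφ.pos r h0
        have h1 := hyM r hr.1.le
        have h2 := (abs_le.1 h1).2
        have h3 := mul_nonneg (hy0 r hr.1.le) (hN0 r hr.1.le)
        refine mul_nonneg (by positivity) ?_
        linarith
    exact this (left_mem_Icc.2 hb) (right_mem_Icc.2 hb) hb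
  have hρ0 : 0 < (φ r₀) ^ 2 * r₀ := by
    have := hφ.pos r₀ h00
    positivity
  have hF0 : FF φ q r₀ = (φ r₀) ^ 2 * r₀ := by
    have hpos : 0 < φ r₀ := hφ.pos r₀ h00
    have h5 : (2 * (φ r₀) ^ 2 * pp φ r₀) ^ 2 = (r₀ * q r₀) ^ 2 := by
      rw [h0eq, sq_abs, mul_pow, mul_pow, ← hqpk r₀ le_rfl, sq_abs]
    unfold FF YY
    field_simp
    linear_combination -h5
  have hFpos : ∀ r, r₀ ≤ r → 0 < FF φ q r := fun r hr => by
    have := hFmono r hr
    rw [hF0] at this
    linarith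
  -- the identity `1 - F / ρ = y² - x²`
  have hsid : ∀ r, 0 < r → 1 - FF φ q r / ((φ r) ^ 2 * r) =
      (pp φ r) ^ 2 - (r * q r / (2 * (φ r) ^ 2)) ^ 2 := by
    intro r hr
    have hp := hφ.pos r hr
    unfold FF YY
    field_simp
    ring
  have hs0 : ∀ r, r₀ ≤ r → 0 ≤ (pp φ r) ^ 2 - (r * q r / (2 * (φ r) ^ 2)) ^ 2 := by
    intro r hr
    have h0 := h00.trans_le hr
    have hp := hφ.pos r h0
    have h1 : |r * q r / (2 * (φ r) ^ 2)| ≤ pp φ r := by
      rw [abs_div, abs_of_pos (show (0:ℝ) < 2 * (φ r) ^ 2 by positivity),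
        div_le_iff₀ (by positivity)]
      linarith [hqu r hr]
    have h2 : (r * q r / (2 * (φ r) ^ 2)) ^ 2 ≤ (pp φ r) ^ 2 := by
      rw [← sq_abs]
      exact pow_le_pow_left₀ (abs_nonneg _) h1 2
    linarith
  -- the rest mass
  have hΨ0 : PsiF φ h r₀ = ((φ r₀) ^ 2 * r₀) ^ 2 := by
    have hp := hφ.pos r₀ h00
    have e : PsiF φ h r₀ = (FF φ q r₀) ^ 2 + r₀ ^ 3 * FF φ q r₀ * B2 h r₀ / (φ r₀) ^ 2 -
      r₀ ^ 4 * B2 h r₀ := rfl
    rw [e, hF0]
    field_simp
    ring
  have hq' : ∀ r, r₀ < r → ∀ w : E, ‖w‖ = 1 → dr (qq h) (r • w) = sphAvg (dr (qq h)) r := by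
    intro r hr w hw
    have h0 := h00.trans hr
    have d1 : HasDerivAt (fun s : ℝ => qq h (s • w)) (dr (qq h) (r • w)) r :=
      hasDerivAt_ray hw h0 (H.qq_diff (ray_ne hw h0))
    have d2 : HasDerivAt q (sphAvg (dr (qq h)) r) r := sphAvg_hasDerivAt H.qq_smooth h0
    have e : (fun s : ℝ => qq h (s • w)) =ᶠ[𝓝 r] q := by
      filter_upwards [Ioi_mem_nhds hr] with s hs
      exact hq s (le_of_lt hs) w hw
    exact (d1.congr_of_eventuallyEq e.symm).unique d2
  set Ψ' : ℝ → ℝ := fun r => 2 * FF φ q r * (r ^ 2 / (2 * (φ r) ^ 2) *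
      (pp φ r * (MM φ h r + sphAvg (transverse h) r) - r * q r * JR φ h r)) +
      (3 * r ^ 2 * FF φ q r * B2 h r / (φ r) ^ 2 +
      r ^ 3 * (r ^ 2 / (2 * (φ r) ^ 2) *
      (pp φ r * (MM φ h r + sphAvg (transverse h) r) - r * q r * JR φ h r)) * B2 h r / (φ r) ^ 2 +
      r ^ 3 * FF φ q r *
      (2 * ∑ j, sphAvg (mixed h j) r * sphAvg (dr (mixed h j)) r) / (φ r) ^ 2 -
      2 * r ^ 3 * FF φ q r * B2 h r * (r * φ r * psi φ r / 2) / (φ r) ^ 3) -
      4 * r ^ 3 * B2 h r -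
      r ^ 4 * (2 * ∑ j, sphAvg (mixed h j) r * sphAvg (dr (mixed h j)) r) with hΨ'
  have hΨd : ∀ r, r₀ ≤ r → HasDerivAt (PsiF φ h) (Ψ' r) r := fun r hr =>
    PsiF_hasDerivAt hφ H (h00.trans_le hr) (hFd r hr)
  have hΨn : ∀ r, r₀ < r → 0 ≤ PsiF φ h r → 0 ≤ Ψ' r := by
    intro r hr hΨ
    have h0 := h00.trans hr
    have hp := hφ.pos r h0
    have hy : 0 < pp φ r := by
      have := (abs_nonneg _).trans_lt (hgt r hr)
      exact (mul_pos_iff_of_pos_left (show (0:ℝ) < 2 * (φ r) ^ 2 by positivity)).1 this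
    have hJB : BJ φ h r = pp φ r * (∑ j, sphAvg (mixed h j) r * sphAvg (dr (mixed h j)) r) +
        B2 h r / r * ((pp φ r) ^ 2 + 2 * pp φ r - 1) := by
      unfold BJ B2
      rw [Finset.mul_sum, Finset.sum_div, Finset.sum_mul, ← Finset.sum_add_distrib]
      refine Finset.sum_congr rfl fun j _ => ?_
      rw [transport hφ H h0 (hq r hr.le) (hq' r hr) j]
      ring
    have key := psi_alg (P := φ r) (r := r) (y := pp φ r) (q := q r) (F := FF φ q r)
      (F' := r ^ 2 / (2 * (φ r) ^ 2) *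
        (pp φ r * (MM φ h r + sphAvg (transverse h) r) - r * q r * JR φ h r))
      (b2 := B2 h r)
      (BB := ∑ j, sphAvg (mixed h j) r * sphAvg (dr (mixed h j)) r) (BJ := BJ φ h r)
      (ps := psi φ r) hp h0 hy rfl rfl hJB
    have hb2 : (Real.sqrt (B2 h r)) ^ 2 = B2 h r := Real.sq_sqrt (hB0 r)
    have hnn : 0 ≤ pp φ r * Ψ' r := by
      rw [hΨ']
      refine le_of_le_of_eq ?_ key.symm
      rcases (hcond r hr.le).2 with hA | hB
      · have := psi_sign_three (P := φ r) (r := r) (y := pp φ r)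
          (x := r * q r / (2 * (φ r) ^ 2)) (F := FF φ q r)
          (F' := r ^ 2 / (2 * (φ r) ^ 2) *
            (pp φ r * (MM φ h r + sphAvg (transverse h) r) - r * q r * JR φ h r))
          (M := MM φ h r) (N := sphAvg (transverse h) r) (b := Real.sqrt (B2 h r))
          (BJ := BJ φ h r) hp h0 hy (hsid r h0) (hs0 r hr.le) (hFpos r hr.le)
          (Real.sqrt_nonneg _) (by rw [hb2]; exact hΨ) (MM_nonneg hφ H h0 (hdec r hr.le))
          (by rw [hb2]; exact hN r hr.le)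
          (by
            refine mul_le_mul_of_nonneg_left ?_ (by positivity)
            have : r * q r * JR φ h r ≤ 0 := by
              rw [mul_assoc]
              exact mul_nonpos_of_nonneg_of_nonpos h0.le hA
            linarith)
          (BJ_le hφ H h0 hy (hdec r hr.le))
        rw [hb2] at this
        exact this
      · have := psi_sign_four (P := φ r) (r := r) (y := pp φ r)
          (x := r * q r / (2 * (φ r) ^ 2)) (F := FF φ q r)
          (F' := r ^ 2 / (2 * (φ r) ^ 2) *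
            (pp φ r * (MM φ h r + sphAvg (transverse h) r) - r * q r * JR φ h r))
          (N := sphAvg (transverse h) r) (b := Real.sqrt (B2 h r))
          (BJ := BJ φ h r) hp h0 hy (hsid r h0) (hs0 r hr.le) (hFpos r hr.le)
          (by rw [hb2]; exact hN r hr.le)
          (by
            refine mul_le_mul_of_nonneg_left ?_ (by positivity)
            have := (abs_le.1 (hyM r hr.le)).2
            linarith)
          hB
        rw [hb2] at this
        exact this
    exact nonneg_of_mul_nonneg_right hnn hy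
  have hΨmono := pos_mono (f := PsiF φ h) (f' := Ψ')
    (fun r hr => (hΨd r hr).continuousAt) (fun r hr => hΨd r hr.le)
    (by rw [hΨ0]; positivity) hΨn
  -- the limit at infinity
  have hbdq : ∀ r, max 1 r₀ ≤ r → |q r| ≤ 12 * C / r ^ 2 := by
    intro r hr
    have h1 : r₀ ≤ r := (le_max_right _ _).trans hr
    rw [← hq r h1 _ e0_norm]
    exact hbdw r ((le_max_left _ _).trans hr) _ e0_norm
  have hFlim : Tendsto (FF φ q) atTop (𝓝 (2 * m)) := by
    set q₁ : ℝ → ℝ := fun r => if max 1 r₀ ≤ r then q r else 0 with hq₁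
    have hC0 : 0 ≤ 12 * C := by
      have := (abs_nonneg _).trans (hbdq (max 1 r₀) le_rfl)
      have hpos : (0:ℝ) < (max 1 r₀) ^ 2 := by positivity
      rw [le_div_iff₀ hpos] at this
      linarith
    have hb1 : ∀ r, 1 ≤ r → |q₁ r| ≤ 12 * C / r ^ 2 := by
      intro r hr
      simp only [hq₁]
      split_ifs with hc
      · exact hbdq r hc
      · rw [abs_zero]
        positivity
    have h1 := (flat.YY hφ).add (tendsto_sq_term flat.one hb1)
    rw [add_zero] at h1
    refine h1.congr' ?_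
    filter_upwards [eventually_ge_atTop (max 1 r₀)] with r hr
    simp only [FF, hq₁, if_pos hr]
  have hBlim : Tendsto (fun r => r ^ 4 * B2 h r) atTop (𝓝 (4 * ∑ i, P i ^ 2)) := by
    have h1 : Tendsto (fun r => 4 * ∑ i, (momentumFlux (metric φ) h i r) ^ 2) atTop
        (𝓝 (4 * ∑ i, P i ^ 2)) :=
      (tendsto_finsetSum _ fun i _ => (mom i).pow 2).const_mul 4
    refine h1.congr' ?_
    filter_upwards [eventually_ge_atTop r₀] with r hr
    have h0 := h00.trans_le hr
    unfold B2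
    rw [Finset.mul_sum, Finset.mul_sum]
    refine Finset.sum_congr rfl fun i _ => ?_
    rw [momentumFlux_eq hφ H h0 (hq r hr) i]
    ring
  have hΨlim : Tendsto (PsiF φ h) atTop (𝓝 ((2 * m) ^ 2 + (4 * ∑ i, P i ^ 2) * (2 * m) * 0 / 1 ^ 2 -
      4 * ∑ i, P i ^ 2)) := by
    have h1 := (((hBlim.mul hFlim).mul tendsto_inv_atTop_zero).div (flat.one.pow 2)
      (by norm_num))
    have h2 := ((hFlim.pow 2).add h1).sub hBlim
    refine h2.congr' ?_
    filter_upwards [eventually_gt_atTop 0] with r hr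
    have hp := hφ.pos r hr
    simp only [Pi.div_apply]
    have e : PsiF φ h r = (FF φ q r) ^ 2 + r ^ 3 * FF φ q r * B2 h r / (φ r) ^ 2 -
      r ^ 4 * B2 h r := rfl
    rw [e]
    field_simp
  have hfin : ((φ r₀) ^ 2 * r₀) ^ 2 ≤ 4 * (m ^ 2 - ∑ i, P i ^ 2) := by
    have h1 := ge_of_tendsto hΨlim (by
      filter_upwards [eventually_ge_atTop r₀] with r hr
      exact hΨmono r hr)
    rw [hΨ0] at h1
    linarith
  refine ⟨r₀, h10, ?_⟩
  rw [sqrt_area hφ h00]
  apply Real.le_sqrt_of_sq_le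
  rw [div_pow]
  linarith

end Pool.Agent.J4.H92.PI
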