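import Pool.Agent.J4.H92.PI.LinMain

/-!
# Spherically symmetric `tr_g h` and linear momentum: evolution of the dipole parts
-/

set_option autoImplicit false

namespace Pool.Agent.J4.H92.PI

open Pool.Agent.K4H63.PI
open scoped BigOperators Topology
open Matrix Filter Set MeasureTheory

/-- The dipole part of `tr_S h`. -/
noncomputable def DD (h : E → Matrix (Fin 3) (Fin 3) ℝ) (j : Fin 3) (r : ℝ) : ℝ :=
  sphAvg (fun x => qq h x * un j x) r

theorem qun_smooth {h : E → Matrix (Fin 3) (Fin 3) ℝ} (H : Tensor h) (j : Fin 3) :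
    ContDiffOn ℝ 1 (fun x => qq h x * un j x) {0}ᶜ := smooth_mul H.qq_smooth (un_smooth j)

theorem DD_hasDerivAt {h : E → Matrix (Fin 3) (Fin 3) ℝ} (H : Tensor h) (j : Fin 3) {r : ℝ}
    (hr : 0 < r) : HasDerivAt (DD h j) (sphAvg (fun x => un j x * dr (qq h) x) r) r := by
  have h1 := sphAvg_hasDerivAt (qun_smooth H j) hr
  refine h1.congr_deriv (sphAvg_congr fun w hw => ?_)
  have hx := ray_ne hw hr
  rw [dr_mul (smooth_diff H.qq_smooth hx) (smooth_diff (un_smooth j) hx), dr_un hx]
  ring

/-- The average of the `j`-th component of the momentum density, in general. -/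
theorem avg_JJ_gen {φ : ℝ → ℝ} {h : E → Matrix (Fin 3) (Fin 3) ℝ} (H : Tensor h)
    {r : ℝ} (hr : 0 < r) (j : Fin 3) :
    sphAvg (JJ φ h j) r = (sphAvg (dr (mixed h j)) r - sphAvg (fun x => un j x * dr (qq h) x) r) +
      2 / r * (sphAvg (mixed h j) r - DD h j r) +
      psi φ r * r * (sphAvg (mixed h j) r + 2 * sphAvg (fun x => hrad h x * un j x) r +
        DD h j r) := by
  have cM := mixed_contDiffOn H j
  have cA := H.hrad_smooth
  have cQ := H.qq_smooth
  have cT := H.tr_smooth
  have cu := un_smooth j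
  have cqu := qun_smooth H j
  have cuq : ContinuousOn (fun x => un j x * dr (qq h) x) {0}ᶜ :=
    cu.continuousOn.mul (dr_cont cQ)
  set Z : Fin 3 → E → ℝ := fun i x => h x i j - tr0 h x * kd i j with hZ
  have cZ : ∀ i, ContDiffOn ℝ 1 (Z i) {0}ᶜ := fun i =>
    (H.smooth i j).sub (cT.mul contDiffOn_const)
  have g := sphAvg_div (V := Z) cZ hr
  set W : E → ℝ := fun x => ∑ i, Z i x * un i x with hW
  have hWe : ∀ x, x ≠ 0 → W x = mixed h j x - qq h x * un j x := by
    intro x hx
    have h1 := row_eq H hx j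
    have h2 : W x = ∑ i, h x i j * un i x - tr0 h x * un j x := by
      simp only [hW, hZ, sub_mul, Finset.sum_sub_distrib]
      congr 1
      rw [Finset.sum_eq_single j (fun i _ hij => by simp [kd, hij]) (by simp)]
      simp [kd]
    rw [h2, h1]
    unfold qq
    ring
  have hWd : ∀ x, x ≠ 0 → dr W x = dr (mixed h j) x - un j x * dr (qq h) x := by
    intro x hx
    have h1 : W =ᶠ[𝓝 x] fun y => mixed h j y - qq h y * un j y := by
      filter_upwards [eventually_ne_zero hx] with y hy
      exact hWe y hy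
    have d1 : DifferentiableAt ℝ (fun y => qq h y * un j y) x :=
      (smooth_diff cQ hx).mul (smooth_diff cu hx)
    rw [dr_congr h1, dr_sub (smooth_diff cM hx) d1,
      dr_mul (smooth_diff cQ hx) (smooth_diff cu hx), dr_un hx]
    ring
  have g1 : sphAvg W r = sphAvg (mixed h j) r - DD h j r := by
    rw [sphAvg_congr (G := fun x => mixed h j x - qq h x * un j x) (fun w hw => by
      rw [hWe _ (ray_ne hw hr)]),
      sphAvg_sub (F := mixed h j) (G := fun x => qq h x * un j x) cM.continuousOn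
        cqu.continuousOn hr]
    rfl
  have g2 : sphAvg (dr W) r =
      sphAvg (dr (mixed h j)) r - sphAvg (fun x => un j x * dr (qq h) x) r := by
    rw [sphAvg_congr (G := fun x => dr (mixed h j) x - un j x * dr (qq h) x) (fun w hw => by
      rw [hWd _ (ray_ne hw hr)]),
      sphAvg_sub (F := dr (mixed h j)) (G := fun x => un j x * dr (qq h) x) (dr_cont cM) cuq hr]
  rw [g1, g2] at g
  -- pointwise form of `JJ`
  have h3 : ∀ w : E, ‖w‖ = 1 → JJ φ h j (r • w) =
      (fun x => (∑ i, pd i (Z i) x) + psi φ r * r * (mixed h j x + 2 * (hrad h x * un j x) +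
        qq h x * un j x)) (r • w) := by
    intro w hw
    have hx := ray_ne hw hr
    have hrn := ray_norm hw hr
    have hrx : ‖r • w‖ ≠ 0 := norm_ne_zero_iff.2 hx
    have e1 : ∀ i, pd i (Z i) (r • w) = pd i (fun y => h y i j) (r • w) -
        kd i j * pd i (tr0 h) (r • w) := by
      intro i
      have d1 : DifferentiableAt ℝ (fun y => tr0 h y * kd i j) (r • w) :=
        (smooth_diff cT hx).mul (differentiableAt_const _)
      rw [show Z i = fun y => h y i j - tr0 h y * kd i j from rfl,
        pd_sub (H.diff hx i j) d1, pd_mul (smooth_diff cT hx) (differentiableAt_const _),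
        pd_const]
      ring
    have e2 : ∑ i, pd i (Z i) (r • w) = ∑ i, pd i (fun y => h y i j) (r • w) -
        pd j (tr0 h) (r • w) := by
      simp only [e1, Finset.sum_sub_distrib]
      congr 1
      rw [Finset.sum_eq_single j (fun i _ hij => by simp [kd, hij]) (by simp)]
      simp [kd]
    have e3 : ∀ l, ff φ l (r • w) = psi φ r * r * un l (r • w) := by
      intro l
      rw [ff_eq, hrn]
      unfold un
      rw [hrn]
      field_simp
    have e4 := row_eq H hx j
    have e5 : ∑ l, ff φ l (r • w) * h (r • w) l j =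
        psi φ r * r * ∑ i, h (r • w) i j * un i (r • w) := by
      rw [Finset.mul_sum]
      exact Finset.sum_congr rfl fun l _ => by rw [e3 l]; ring
    have e6 : tr0 h (r • w) = hrad h (r • w) + qq h (r • w) := by
      unfold qq; ring
    unfold JJ
    simp only
    rw [e2, e5, e4, e3 j, e6]
    ring
  have cD : ContinuousOn (fun x => ∑ i, pd i (Z i) x) {0}ᶜ :=
    continuousOn_finsetSum _ fun i _ => pd_cont (cZ i) i
  have cAu : ContinuousOn (fun x => hrad h x * un j x) {0}ᶜ :=
    cA.continuousOn.mul cu.continuousOn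
  have c1 : ContinuousOn (fun x => mixed h j x + 2 * (hrad h x * un j x)) {0}ᶜ :=
    cM.continuousOn.add (continuousOn_const.mul cAu)
  rw [sphAvg_congr (G := fun x => (∑ i, pd i (Z i) x) +
      (psi φ r * r * (mixed h j x + 2 * (hrad h x * un j x) + qq h x * un j x))) h3,
    sphAvg_add (F := fun x => ∑ i, pd i (Z i) x)
      (G := fun x => psi φ r * r * (mixed h j x + 2 * (hrad h x * un j x) + qq h x * un j x))
      cD (continuousOn_const.mul (c1.add cqu.continuousOn)) hr,
    sphAvg_mul, g,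
    sphAvg_add (F := fun x => mixed h j x + 2 * (hrad h x * un j x))
      (G := fun x => qq h x * un j x) c1 cqu.continuousOn hr,
    sphAvg_add (F := mixed h j) (G := fun x => 2 * (hrad h x * un j x)) cM.continuousOn
      (continuousOn_const.mul cAu) hr, sphAvg_mul]
  rfl

/-- The average of `u_j` times the radial component of the momentum density, in general. -/
theorem avg_un_radial_gen {φ : ℝ → ℝ} (hφ : Good φ) {h : E → Matrix (Fin 3) (Fin 3) ℝ}
    (H : Tensor h) {r : ℝ} (hr : 0 < r) (j : Fin 3) :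
    sphAvg (fun x => un j x * ∑ k, un k x * JJ φ h k x) r = -(sphAvg (mixed h j) r) / r +
      2 / r * (1 + r ^ 2 * psi φ r) * sphAvg (fun x => hrad h x * un j x) r +
      (r * psi φ r - 1 / r) * DD h j r - sphAvg (fun x => un j x * dr (qq h) x) r := by
  have cA := H.hrad_smooth
  have cu := un_smooth j
  have cQ := H.qq_smooth
  have cqu := qun_smooth H j
  have cuq : ContinuousOn (fun x => un j x * dr (qq h) x) {0}ᶜ :=
    cu.continuousOn.mul (dr_cont cQ)
  have g := sphAvg_un_div (X := mixed h) (fun i => mixed_contDiffOn H i)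
    (fun x hx => mixed_tangential h hx) j hr
  have h3 : ∀ w : E, ‖w‖ = 1 → (un j (r • w) * ∑ k, un k (r • w) * JJ φ h k (r • w)) =
      (fun x => (un j x * ∑ i, pd i (mixed h i) x + (2 / r * (1 + r ^ 2 * psi φ r) *
        (hrad h x * un j x) + (r * psi φ r - 1 / r) * (qq h x * un j x))) -
        un j x * dr (qq h) x) (r • w) := by
    intro w hw
    have hx := ray_ne hw hr
    rw [radial_JJ hφ H hx, ray_norm hw hr]
    simp only [divMixed]
    field_simp
    ring
  have cD : ContinuousOn (fun x => un j x * ∑ i, pd i (mixed h i) x) {0}ᶜ :=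
    cu.continuousOn.mul (continuousOn_finsetSum _ fun i _ => pd_cont (mixed_contDiffOn H i) i)
  have cAu : ContinuousOn (fun x => hrad h x * un j x) {0}ᶜ :=
    cA.continuousOn.mul cu.continuousOn
  have c2 : ContinuousOn (fun x => 2 / r * (1 + r ^ 2 * psi φ r) * (hrad h x * un j x)) {0}ᶜ :=
    continuousOn_const.mul cAu
  have c3 : ContinuousOn (fun x => (r * psi φ r - 1 / r) * (qq h x * un j x)) {0}ᶜ :=
    continuousOn_const.mul cqu.continuousOn
  rw [sphAvg_congr (F := fun x => un j x * ∑ k, un k x * JJ φ h k x)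
      (G := fun x => (un j x * ∑ i, pd i (mixed h i) x + (2 / r * (1 + r ^ 2 * psi φ r) *
        (hrad h x * un j x) + (r * psi φ r - 1 / r) * (qq h x * un j x))) -
        un j x * dr (qq h) x) h3,
    sphAvg_sub (F := fun x => un j x * ∑ i, pd i (mixed h i) x +
        (2 / r * (1 + r ^ 2 * psi φ r) * (hrad h x * un j x) +
          (r * psi φ r - 1 / r) * (qq h x * un j x)))
      (G := fun x => un j x * dr (qq h) x) (cD.add (c2.add c3)) cuq hr,
    sphAvg_add (F := fun x => un j x * ∑ i, pd i (mixed h i) x)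
      (G := fun x => 2 / r * (1 + r ^ 2 * psi φ r) * (hrad h x * un j x) +
        (r * psi φ r - 1 / r) * (qq h x * un j x)) cD (c2.add c3) hr,
    sphAvg_add (F := fun x => 2 / r * (1 + r ^ 2 * psi φ r) * (hrad h x * un j x))
      (G := fun x => (r * psi φ r - 1 / r) * (qq h x * un j x)) c2 c3 hr,
    sphAvg_mul, sphAvg_mul, g]
  unfold DD
  ring

/-- If `tr_g h` is constant on the sphere, the dipole part of `h(ν, ν)` is `-DD`. -/
theorem hrad_dipole {h : E → Matrix (Fin 3) (Fin 3) ℝ} (H : Tensor h) {r t : ℝ} (hr : 0 < r)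
    (ht : ∀ w : E, ‖w‖ = 1 → tr0 h (r • w) = t) (j : Fin 3) :
    sphAvg (fun x => hrad h x * un j x) r = -DD h j r := by
  have cqu := (qun_smooth H j).continuousOn
  have cu := un_cont j
  rw [sphAvg_congr (G := fun x => t * un j x - qq h x * un j x) (fun w hw => by
    have := ht w hw
    have e : hrad h (r • w) = t - qq h (r • w) := by unfold qq; rw [this]; ring
    rw [e]; ring),
    sphAvg_sub (F := fun x => t * un j x) (G := fun x => qq h x * un j x)
      (continuousOn_const.mul cu) cqu hr, sphAvg_mul, sphAvg_un j hr]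
  unfold DD
  ring

theorem hrad_avg {h : E → Matrix (Fin 3) (Fin 3) ℝ} (H : Tensor h) {r t : ℝ} (hr : 0 < r)
    (ht : ∀ w : E, ‖w‖ = 1 → tr0 h (r • w) = t) :
    sphAvg (hrad h) r = t - sphAvg (qq h) r := by
  have cQ := H.qq_smooth.continuousOn
  rw [sphAvg_congr (G := fun x => t - qq h x) (fun w hw => by
    have := ht w hw
    unfold qq; rw [this]; ring),
    sphAvg_sub (F := fun _ => t) (G := qq h) continuousOn_const cQ hr, sphAvg_const]

/-- The monopole and dipole parts of the momentum density vanish on the sphere. -/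
structure NoDipole (φ : ℝ → ℝ) (h : E → Matrix (Fin 3) (Fin 3) ℝ) (r : ℝ) : Prop where
  rad : JR φ h r = 0
  radj : ∀ j, sphAvg (fun x => un j x * ∑ k, un k x * JJ φ h k x) r = 0
  tanj : ∀ j, sphAvg (JJ φ h j) r = 0

theorem DD_ode {φ : ℝ → ℝ} (hφ : Good φ) {h : E → Matrix (Fin 3) (Fin 3) ℝ} (H : Tensor h)
    {r t : ℝ} (hr : 0 < r) (ht : ∀ w : E, ‖w‖ = 1 → tr0 h (r • w) = t) (hJ : NoDipole φ h r)
    (j : Fin 3) : HasDerivAt (DD h j)
      (-(sphAvg (mixed h j) r) / r - (3 / r + r * psi φ r) * DD h j r) r := by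
  have h1 := avg_un_radial_gen hφ H hr j
  rw [hJ.radj j, hrad_dipole H hr ht j] at h1
  refine (DD_hasDerivAt H j hr).congr_deriv ?_
  have h2 : (2 / r * (1 + r ^ 2 * psi φ r)) = 2 / r + 2 * r * psi φ r := by
    field_simp
  rw [h2] at h1
  have e : (3:ℝ) / r = 3 * (1 / r) := by ring
  have e2 : (2:ℝ) / r = 2 * (1 / r) := by ring
  rw [e2] at h1
  rw [e]
  linarith

theorem mixed_ode {φ : ℝ → ℝ} (hφ : Good φ) {h : E → Matrix (Fin 3) (Fin 3) ℝ} (H : Tensor h)
    {r t : ℝ} (hr : 0 < r) (ht : ∀ w : E, ‖w‖ = 1 → tr0 h (r • w) = t) (hJ : NoDipole φ h r)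
    (j : Fin 3) : HasDerivAt (sphAvg (mixed h j))
      (-(3 / r + r * psi φ r) * sphAvg (mixed h j) r - DD h j r / r) r := by
  have h1 := avg_JJ_gen (φ := φ) H hr j
  rw [hJ.tanj j, hrad_dipole H hr ht j] at h1
  have h2 := (DD_hasDerivAt H j hr).unique (DD_ode hφ H hr ht hJ j)
  rw [h2] at h1
  refine (sphAvg_hasDerivAt (mixed_contDiffOn H j) hr).congr_deriv ?_
  have e : (3:ℝ) / r = 3 * (1 / r) := by ring
  have e2 : (2:ℝ) / r = 2 * (1 / r) := by ring
  have e3 : DD h j r / r = DD h j r * (1 / r) := by ring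
  have e4 : -(sphAvg (mixed h j) r) / r = -(sphAvg (mixed h j) r) * (1 / r) := by ring
  rw [e2, e4, e] at h1
  rw [e, e3]
  linarith

theorem qavg_ode {φ : ℝ → ℝ} (hφ : Good φ) {h : E → Matrix (Fin 3) (Fin 3) ℝ} (H : Tensor h)
    {r t : ℝ} (hr : 0 < r) (ht : ∀ w : E, ‖w‖ = 1 → tr0 h (r • w) = t) (hJ : NoDipole φ h r) :
    HasDerivAt (sphAvg (qq h))
      (2 * (1 / r + r * psi φ r) * t - (3 / r + r * psi φ r) * sphAvg (qq h) r) r := by
  have h1 := JR_eq hφ H hr
  rw [hJ.rad, hrad_avg H hr ht] at h1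
  refine (sphAvg_hasDerivAt H.qq_smooth hr).congr_deriv ?_
  have e : (3:ℝ) / r = 3 * (1 / r) := by ring
  have e2 : (2 * (t - sphAvg (qq h) r) - sphAvg (qq h) r) / r =
      (2 * (t - sphAvg (qq h) r) - sphAvg (qq h) r) * (1 / r) := by ring
  rw [e2] at h1
  rw [e]
  linarith

end Pool.Agent.J4.H92.PI
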