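import Pool.Agent.J4.H92.PI.Max1

/-!
# Spherically symmetric `tr_g h` and linear momentum: the energy inequality
-/

set_option autoImplicit false

namespace Pool.Agent.J4.H92.PI

open Pool.Agent.K4H63.PI
open scoped BigOperators Topology
open Matrix Filter Set MeasureTheory

/-- The square of the dipole part of `tr_S h`. -/
noncomputable def D2 (h : E → Matrix (Fin 3) (Fin 3) ℝ) (r : ℝ) : ℝ := ∑ j, (DD h j r) ^ 2

/-- The product of the two dipole parts. -/
noncomputable def BD (h : E → Matrix (Fin 3) (Fin 3) ℝ) (r : ℝ) : ℝ :=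
  ∑ j, sphAvg (mixed h j) r * DD h j r

theorem D2_nonneg (h : E → Matrix (Fin 3) (Fin 3) ℝ) (r : ℝ) : 0 ≤ D2 h r :=
  Finset.sum_nonneg fun _ _ => sq_nonneg _

theorem B2_nonneg (h : E → Matrix (Fin 3) (Fin 3) ℝ) (r : ℝ) : 0 ≤ B2 h r :=
  Finset.sum_nonneg fun _ _ => sq_nonneg _

/-- Bessel's inequality for the monopole and dipole parts. -/
theorem bessel {h : E → Matrix (Fin 3) (Fin 3) ℝ} (H : Tensor h) {r : ℝ} (hr : 0 < r) :
    (sphAvg (qq h) r) ^ 2 + 3 * D2 h r ≤ sphAvg (fun x => (qq h x) ^ 2) r := by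
  have cQ := H.qq_smooth.continuousOn
  have cqu : ∀ j, ContinuousOn (fun x => qq h x * un j x) {0}ᶜ := fun j =>
    (qun_smooth H j).continuousOn
  set b := sphAvg (qq h) r with hb
  set d : Fin 3 → ℝ := fun j => DD h j r with hd
  have cU : ContinuousOn (fun x => ∑ j, d j * un j x) {0}ᶜ :=
    continuousOn_finsetSum _ fun j _ => continuousOn_const.mul (un_cont j)
  -- pointwise: `q² ≥ 2 q (b + 3 d·n) - (b + 3 d·n)²`
  have h1 := sphAvg_mono (r := r)
    (F := fun x => (2 * b * qq h x + 6 * ∑ j, d j * (qq h x * un j x)) -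
      (b ^ 2 + 6 * b * ∑ j, d j * un j x + 9 * (∑ j, d j * un j x) ^ 2))
    (G := fun x => (qq h x) ^ 2)
    (((continuousOn_const.mul cQ).add (continuousOn_const.mul
      (continuousOn_finsetSum _ fun j _ => continuousOn_const.mul (cqu j)))).sub
      ((continuousOn_const.add (continuousOn_const.mul cU)).add
        (continuousOn_const.mul (cU.pow 2)))) (cQ.pow 2) hr
    (fun w _ => by
      have e : ∑ j, d j * (qq h (r • w) * un j (r • w)) =
          qq h (r • w) * ∑ j, d j * un j (r • w) := by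
        rw [Finset.mul_sum]
        exact Finset.sum_congr rfl fun j _ => by ring
      simp only [e]
      nlinarith [sq_nonneg (qq h (r • w) - b - 3 * ∑ j, d j * un j (r • w))])
  have c1 : ContinuousOn (fun x => 2 * b * qq h x) {0}ᶜ := continuousOn_const.mul cQ
  have c2 : ContinuousOn (fun x => 6 * ∑ j, d j * (qq h x * un j x)) {0}ᶜ :=
    continuousOn_const.mul (continuousOn_finsetSum _ fun j _ => continuousOn_const.mul (cqu j))
  have c3 : ContinuousOn (fun x => 6 * b * ∑ j, d j * un j x) {0}ᶜ :=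
    continuousOn_const.mul cU
  have c4 : ContinuousOn (fun x => 9 * (∑ j, d j * un j x) ^ 2) {0}ᶜ :=
    continuousOn_const.mul (cU.pow 2)
  have c5 : ContinuousOn (fun x => b ^ 2 + 6 * b * ∑ j, d j * un j x) {0}ᶜ :=
    continuousOn_const.add c3
  rw [sphAvg_sub (F := fun x => 2 * b * qq h x + 6 * ∑ j, d j * (qq h x * un j x))
      (G := fun x => b ^ 2 + 6 * b * ∑ j, d j * un j x + 9 * (∑ j, d j * un j x) ^ 2)
      (c1.add c2) (c5.add c4) hr,
    sphAvg_add (F := fun x => 2 * b * qq h x) c1 c2 hr, sphAvg_mul, sphAvg_mul,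
    sphAvg_sum (F := fun j x => d j * (qq h x * un j x))
      (fun j => continuousOn_const.mul (cqu j)) hr,
    sphAvg_add (F := fun x => b ^ 2 + 6 * b * ∑ j, d j * un j x) c5 c4 hr,
    sphAvg_add (F := fun _ => b ^ 2) (G := fun x => 6 * b * ∑ j, d j * un j x)
      continuousOn_const c3 hr, sphAvg_const, sphAvg_mul, sphAvg_mul,
    sphAvg_sum (F := fun j x => d j * un j x) (fun j => continuousOn_const.mul (un_cont j)) hr]
    at h1
  have e1 : ∑ j, sphAvg (fun x => d j * (qq h x * un j x)) r = D2 h r := by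
    unfold D2
    refine Finset.sum_congr rfl fun j _ => ?_
    rw [sphAvg_mul]
    change d j * DD h j r = _
    rw [sq]
  have e2 : ∑ j, sphAvg (fun x => d j * un j x) r = 0 := by
    refine Finset.sum_eq_zero fun j _ => ?_
    rw [sphAvg_mul, sphAvg_un j hr, mul_zero]
  have e3 : sphAvg (fun x => (∑ j, d j * un j x) ^ 2) r = D2 h r / 3 := by
    have e4 : ∀ w : E, ‖w‖ = 1 → (fun x => (∑ j, d j * un j x) ^ 2) (r • w) =
        (fun x => ∑ j, ∑ k, d j * d k * (un j x * un k x)) (r • w) := by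
      intro w _
      simp only [Fin.sum_univ_three]
      ring
    have cc : ∀ j k, ContinuousOn (fun x => d j * d k * (un j x * un k x)) {0}ᶜ := fun j k =>
      continuousOn_const.mul ((un_cont j).mul (un_cont k))
    rw [sphAvg_congr (F := fun x => (∑ j, d j * un j x) ^ 2)
      (G := fun x => ∑ j, ∑ k, d j * d k * (un j x * un k x)) e4, sphAvg_sum (F := fun j x => ∑ k, d j * d k * (un j x * un k x))
      (fun j => continuousOn_finsetSum _ fun k _ => cc j k) hr]
    have e5 : ∀ j, sphAvg (fun x => ∑ k, d j * d k * (un j x * un k x)) r =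
        (d j) ^ 2 / 3 := by
      intro j
      rw [sphAvg_sum (F := fun k x => d j * d k * (un j x * un k x)) (fun k => cc j k) hr]
      rw [Finset.sum_eq_single j (fun k _ hk => by
        rw [sphAvg_mul, sphAvg_un_un j k hr]; simp [kd, Ne.symm hk]) (by simp)]
      rw [sphAvg_mul, sphAvg_un_un j j hr]
      simp [kd]
      ring
    simp only [e5]
    unfold D2
    rw [Finset.sum_div]
  rw [e1, e2, e3] at h1
  linarith

/-- The averaged energy inequality when `tr_g h` is constant on the sphere. -/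
theorem energy_dipole {φ : ℝ → ℝ} (hφ : Good φ) {h : E → Matrix (Fin 3) (Fin 3) ℝ}
    (H : Tensor h) {r t : ℝ} (hr : 0 < r) (ht : ∀ w : E, ‖w‖ = 1 → tr0 h (r • w) = t)
    (hdec : ∀ w : E, ‖w‖ = 1 →
      momentumNorm (metric φ) h (r • w) ≤ energy (metric φ) h (r • w)) :
    0 ≤ (φ r) ^ 8 * scal (metric φ) (r • (EuclideanSpace.single 0 1 : E)) +
      2 * t * sphAvg (qq h) r - 3 / 2 * (sphAvg (qq h) r) ^ 2 - 9 / 2 * D2 h r - 3 * B2 h r := by
  have h1 := MM_nonneg hφ H hr hdec
  have cQ := H.qq_smooth.continuousOn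
  have cN := H.transverse_cont
  have h2 := avg_transverse_ge H hr
  have h3 := bessel H hr
  unfold MM at h1
  have c1 : ContinuousOn (fun x => 2 * t * qq h x) {0}ᶜ := continuousOn_const.mul cQ
  have c2 : ContinuousOn (fun x => 3 / 2 * (qq h x) ^ 2) {0}ᶜ := continuousOn_const.mul (cQ.pow 2)
  rw [sphAvg_congr (F := fun x => 2 * hrad h x * qq h x + (qq h x) ^ 2 / 2 - transverse h x)
    (G := fun x => (2 * t * qq h x - 3 / 2 * (qq h x) ^ 2) - transverse h x) (fun w hw => by
      have := ht w hw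
      have e : hrad h (r • w) = t - qq h (r • w) := by unfold qq; rw [this]; ring
      rw [e]; ring),
    sphAvg_sub (F := fun x => 2 * t * qq h x - 3 / 2 * (qq h x) ^ 2) (c1.sub c2) cN hr,
    sphAvg_sub (F := fun x => 2 * t * qq h x) c1 c2 hr, sphAvg_mul, sphAvg_mul] at h1
  have h4 : 3 * B2 h r ≤ sphAvg (transverse h) r := h2
  linarith

/-- The sum over `j` of products of functions with given derivatives. -/
theorem sum_mul_hasDerivAt {f g : Fin 3 → ℝ → ℝ} {f' g' : Fin 3 → ℝ} {r : ℝ}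
    (hf : ∀ j, HasDerivAt (f j) (f' j) r) (hg : ∀ j, HasDerivAt (g j) (g' j) r) :
    HasDerivAt (fun s => ∑ j, f j s * g j s) (∑ j, (f' j * g j r + f j r * g' j)) r :=
  HasDerivAt.fun_sum fun j _ => (hf j).mul (hg j)

theorem D2_ode {φ : ℝ → ℝ} (hφ : Good φ) {h : E → Matrix (Fin 3) (Fin 3) ℝ} (H : Tensor h)
    {r t : ℝ} (hr : 0 < r) (ht : ∀ w : E, ‖w‖ = 1 → tr0 h (r • w) = t) (hJ : NoDipole φ h r) :
    HasDerivAt (D2 h) (-(2 / r) * BD h r - 2 * (3 / r + r * psi φ r) * D2 h r) r := by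
  have h1 := sum_mul_hasDerivAt (fun j => DD_ode hφ H hr ht hJ j) (fun j => DD_ode hφ H hr ht hJ j)
  have e : D2 h = fun s => ∑ j, DD h j s * DD h j s := by
    funext s; unfold D2; exact Finset.sum_congr rfl fun j _ => by ring
  rw [e]
  refine h1.congr_deriv ?_
  simp only [BD, Fin.sum_univ_three]
  ring

theorem B2_ode {φ : ℝ → ℝ} (hφ : Good φ) {h : E → Matrix (Fin 3) (Fin 3) ℝ} (H : Tensor h)
    {r t : ℝ} (hr : 0 < r) (ht : ∀ w : E, ‖w‖ = 1 → tr0 h (r • w) = t) (hJ : NoDipole φ h r) :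
    HasDerivAt (B2 h) (-(2 / r) * BD h r - 2 * (3 / r + r * psi φ r) * B2 h r) r := by
  have h1 := sum_mul_hasDerivAt (fun j => mixed_ode hφ H hr ht hJ j)
    (fun j => mixed_ode hφ H hr ht hJ j)
  have e : B2 h = fun s => ∑ j, sphAvg (mixed h j) s * sphAvg (mixed h j) s := by
    funext s; unfold B2; exact Finset.sum_congr rfl fun j _ => by ring
  rw [e]
  refine h1.congr_deriv ?_
  simp only [BD, Fin.sum_univ_three]
  ring

theorem BD_ode {φ : ℝ → ℝ} (hφ : Good φ) {h : E → Matrix (Fin 3) (Fin 3) ℝ} (H : Tensor h)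
    {r t : ℝ} (hr : 0 < r) (ht : ∀ w : E, ‖w‖ = 1 → tr0 h (r • w) = t) (hJ : NoDipole φ h r) :
    HasDerivAt (BD h) (-(B2 h r + D2 h r) / r - 2 * (3 / r + r * psi φ r) * BD h r) r := by
  have h1 := sum_mul_hasDerivAt (fun j => mixed_ode hφ H hr ht hJ j)
    (fun j => DD_ode hφ H hr ht hJ j)
  have h2 : HasDerivAt (BD h) _ r := h1
  refine h2.congr_deriv ?_
  simp only [BD, B2, D2, Fin.sum_univ_three]
  ring

end Pool.Agent.J4.H92.PI
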