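import Pool.Agent.J4.H92.PI.Max2

/-!
# Spherically symmetric `tr_g h` and linear momentum: the monotone quantities
-/

set_option autoImplicit false

namespace Pool.Agent.J4.H92.PI

open Pool.Agent.K4H63.PI
open scoped BigOperators Topology
open Matrix Filter Set MeasureTheory

theorem pp_hasDerivAt {φ : ℝ → ℝ} (hφ : Good φ) {r : ℝ} (hr : 0 < r) {x : E} (hx : ‖x‖ = r) :
    HasDerivAt (pp φ) (-(r * psi φ r) - r * (φ r) ^ 4 * scal (metric φ) x / 4 -
      r ^ 3 * (psi φ r) ^ 2 / 2) r := by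
  have hx0 : x ≠ 0 := by
    rw [← norm_pos_iff, hx]; exact hr
  have hp := hφ.pos r hr
  rw [scal_metric hφ hx0, hx]
  have d2 := (hφ.psi_diff hr).hasDerivAt
  have d3 : HasDerivAt (pp φ) (2 * r * psi φ r + r ^ 2 * deriv (psi φ) r) r := by
    have := (((hasDerivAt_id r).fun_pow 2).mul d2).const_add 1
    have h2 : HasDerivAt (pp φ) _ r := this
    refine h2.congr_deriv ?_
    simp
  refine d3.congr_deriv ?_
  field_simp
  ring

/-- Twice the mass function with the dipole part of `tr_S h`. -/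
noncomputable def HatF (φ : ℝ → ℝ) (h : E → Matrix (Fin 3) (Fin 3) ℝ) (r : ℝ) : ℝ :=
  FF φ (sphAvg (qq h)) r + 3 * r ^ 3 * D2 h r / (4 * (φ r) ^ 2)

/-- Four times the square of the quasilocal rest mass. -/
noncomputable def PsiM (φ : ℝ → ℝ) (h : E → Matrix (Fin 3) (Fin 3) ℝ) (r : ℝ) : ℝ :=
  (HatF φ h r) ^ 2 - r ^ 4 * (D2 h r - 2 * pp φ r * BD h r +
    ((pp φ r) ^ 2 - (r * sphAvg (qq h) r / (2 * (φ r) ^ 2)) ^ 2) * B2 h r)

/-- `2 φ⁸` times the excess in the averaged energy inequality. -/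
noncomputable def Ex (φ : ℝ → ℝ) (h : E → Matrix (Fin 3) (Fin 3) ℝ) (t r : ℝ) : ℝ :=
  (φ r) ^ 8 * scal (metric φ) (r • (EuclideanSpace.single 0 1 : E)) +
      2 * t * sphAvg (qq h) r - 3 / 2 * (sphAvg (qq h) r) ^ 2 - 9 / 2 * D2 h r - 3 * B2 h r

theorem HatF_hasDerivAt {φ : ℝ → ℝ} (hφ : Good φ) {h : E → Matrix (Fin 3) (Fin 3) ℝ}
    (H : Tensor h) {r t : ℝ} (hr : 0 < r) (ht : ∀ w : E, ‖w‖ = 1 → tr0 h (r • w) = t)
    (hJ : NoDipole φ h r) :
    HasDerivAt (HatF φ h) (r ^ 2 / (2 * (φ r) ^ 2) *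
      (pp φ r * (Ex φ h t r + 3 * B2 h r) - 3 * BD h r)) r := by
  have hp := hφ.pos r hr
  have d1 := (hφ.diff hr).hasDerivAt
  have hd : deriv φ r = r * φ r * psi φ r / 2 := by
    unfold psi
    field_simp
  rw [hd] at d1
  have d0 := hasDerivAt_FF hφ hr (ray_norm e0_norm hr) (qavg_ode hφ H hr ht hJ)
  have d4 := (((((hasDerivAt_id r).fun_pow 3).const_mul 3).mul (D2_ode hφ H hr ht hJ)).div
    ((d1.fun_pow 2).const_mul 4) (by positivity))
  have d5 := d0.add d4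
  have h2 : HasDerivAt (HatF φ h) _ r := d5
  refine h2.congr_deriv ?_
  unfold Ex
  simp only [id, Pi.mul_apply]
  unfold pp
  field_simp
  ring

theorem PsiM_hasDerivAt {φ : ℝ → ℝ} (hφ : Good φ) {h : E → Matrix (Fin 3) (Fin 3) ℝ}
    (H : Tensor h) {r t : ℝ} (hr : 0 < r) (ht : ∀ w : E, ‖w‖ = 1 → tr0 h (r • w) = t)
    (hJ : NoDipole φ h r) :
    HasDerivAt (PsiM φ h) (HatF φ h r * r ^ 2 * pp φ r * Ex φ h t r / (φ r) ^ 2 +
      r ^ 5 / (φ r) ^ 4 * (2 * pp φ r * B2 h r *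
        (9 / 4 * D2 h r + 3 / 4 * B2 h r + Ex φ h t r / 4) + (-(BD h r)) *
        (9 / 4 * D2 h r + 5 / 4 * (sphAvg (qq h) r) ^ 2 + (φ r) ^ 8 *
          scal (metric φ) (r • (EuclideanSpace.single 0 1 : E)) / 2))) r := by
  have hp := hφ.pos r hr
  have d1 := (hφ.diff hr).hasDerivAt
  have hd : deriv φ r = r * φ r * psi φ r / 2 := by
    unfold psi
    field_simp
  rw [hd] at d1
  have dF := HatF_hasDerivAt hφ H hr ht hJ
  have dp := pp_hasDerivAt hφ hr (ray_norm e0_norm hr)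
  have dq := qavg_ode hφ H hr ht hJ
  have dD := D2_ode hφ H hr ht hJ
  have dB := B2_ode hφ H hr ht hJ
  have dBD := BD_ode hφ H hr ht hJ
  have dx := ((hasDerivAt_id r).mul dq).div ((d1.fun_pow 2).const_mul 2) (by positivity)
  have d6 := (dD.sub ((dp.const_mul 2).mul dBD)).add (((dp.fun_pow 2).sub (dx.fun_pow 2)).mul dB)
  have d7 := (dF.fun_pow 2).sub (((hasDerivAt_id r).fun_pow 4).mul d6)
  have h2 : HasDerivAt (PsiM φ h) _ r := d7
  refine h2.congr_deriv ?_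
  simp only [id, Pi.mul_apply, Pi.div_apply, Pi.sub_apply, Pi.add_apply, Nat.cast_ofNat,
    Nat.reduceSub, pow_one]
  have hF : HatF φ h r = (φ r) ^ 2 * r * (1 - (pp φ r) ^ 2) +
      r ^ 3 * (sphAvg (qq h) r) ^ 2 / (4 * (φ r) ^ 2) + 3 * r ^ 3 * D2 h r / (4 * (φ r) ^ 2) := rfl
  rw [hF]
  unfold Ex
  set S := scal (metric φ) (r • (EuclideanSpace.single 0 1 : E))
  have hps : psi φ r = (pp φ r - 1) / r ^ 2 := by unfold pp; field_simp; ring
  rw [hps]
  set y := pp φ r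
  set q := sphAvg (qq h) r
  set b2 := B2 h r
  set d2 := D2 h r
  set bd := BD h r
  clear_value y q b2 d2 bd S
  generalize φ r = P at *
  have hP : P ≠ 0 := hp.ne'
  have hr' : r ≠ 0 := hr.ne'
  field_simp
  ring

end Pool.Agent.J4.H92.PI
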