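import Pool.Agent.J4.H92.PI.Max3

/-!
# Spherically symmetric `tr_g h` and linear momentum: the inequality
-/

set_option autoImplicit false

namespace Pool.Agent.J4.H92.PI

open Pool.Agent.K4H63.PI
open scoped BigOperators Topology
open Matrix Filter Set MeasureTheory

theorem sphAvg_bound {F : E → ℝ} (hF : ContinuousOn F {0}ᶜ) {r c : ℝ} (hr : 0 < r)
    (h : ∀ w : E, ‖w‖ = 1 → |F (r • w)| ≤ c) : |sphAvg F r| ≤ c := by
  have h1 := sphAvg_mono (F := F) (G := fun _ => c) hF continuousOn_const hr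
    (fun w hw => (abs_le.1 (h w hw)).2)
  have h2 := sphAvg_mono (F := fun _ => -c) (G := F) continuousOn_const hF hr
    (fun w hw => (abs_le.1 (h w hw)).1)
  rw [sphAvg_const] at h1 h2
  exact abs_le.2 ⟨h2, h1⟩

theorem un_abs_le {w : E} (hw : ‖w‖ = 1) {r : ℝ} (hr : 0 < r) (j : Fin 3) :
    |un j (r • w)| ≤ 1 := unit_le_one (ray_ne hw hr) j

theorem flux_gen {φ : ℝ → ℝ} (hφ : Good φ) {h : E → Matrix (Fin 3) (Fin 3) ℝ}
    (H : Tensor h) {r : ℝ} (hr : 0 < r)
    (i : Fin 3) : momentumFlux (metric φ) h i r =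
      r ^ 2 / 2 * (sphAvg (mixed h i) r - DD h i r) := by
  have hp := hφ.pos r hr
  have hpi := Real.pi_ne_zero
  have e1 : momentumFlux (metric φ) h i r = r ^ 2 / 2 *
      sphAvg (fun x => ∑ j, (h x - trg (metric φ) h x • metric φ x) i j * (x j / ‖x‖)) r := by
    unfold momentumFlux sphAvg
    have : ∀ ω : Metric.sphere (0 : E) 1,
        (∑ j, (h (r • (ω : E)) - trg (metric φ) h (r • (ω : E)) • metric φ (r • (ω : E))) i j *
          ((r • (ω : E)) j / ‖r • (ω : E)‖)) =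
        ∑ j, (h (r • (ω : E)) - trg (metric φ) h (r • (ω : E)) • metric φ (r • (ω : E))) i j *
          (ω : E) j := by
      intro ω
      refine Finset.sum_congr rfl fun j _ => ?_
      rw [ray_norm (sphere_norm ω) hr, PiLp.smul_apply, smul_eq_mul]
      field_simp
    simp only [this]
    field_simp
    ring
  rw [e1]
  congr 1
  have cM := (mixed_contDiffOn H i).continuousOn
  have e2 : ∀ w : E, ‖w‖ = 1 →
      (∑ j, (h (r • w) - trg (metric φ) h (r • w) • metric φ (r • w)) i j *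
        ((r • w) j / ‖r • w‖)) = mixed h i (r • w) - qq h (r • w) * un i (r • w) := by
    intro w hw
    have hx := ray_ne hw hr
    have hp' : φ ‖r • w‖ ≠ 0 := by rw [ray_norm hw hr]; exact hp.ne'
    have hsum : ∀ j, (h (r • w) - trg (metric φ) h (r • w) • metric φ (r • w)) i j *
        ((r • w) j / ‖r • w‖) = h (r • w) i j * ((r • w) j / ‖r • w‖) -
          tr0 h (r • w) * (kd i j * ((r • w) j / ‖r • w‖)) := by
      intro j
      rw [trace_reversed h hp' i j]
      ring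
    simp only [hsum]
    rw [Finset.sum_sub_distrib, ← Finset.mul_sum]
    have hk : ∑ j, kd i j * ((r • w) j / ‖r • w‖) = un i (r • w) := by
      rw [Finset.sum_eq_single i (fun j _ hij => by simp [kd, Ne.symm hij]) (by simp)]
      simp [kd, un]
    rw [hk]
    unfold qq mixed un
    ring
  rw [sphAvg_congr (G := fun x => mixed h i x - qq h x * un i x) e2,
    sphAvg_sub cM (qun_smooth H i).continuousOn hr]
  rfl

/-- There is a last sphere with `y ≤ 0`, or `y > 0` everywhere outside. -/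
theorem last_minimal {φ : ℝ → ℝ} (hφ : Good φ) {r₁ : ℝ} (hr₁ : 0 < r₁)
    (hp : Tendsto (pp φ) atTop (𝓝 1)) :
    (∀ r, r₁ ≤ r → 0 < pp φ r) ∨ ∃ r₀, r₁ ≤ r₀ ∧ pp φ r₀ = 0 ∧ ∀ r, r₀ < r → 0 < pp φ r := by
  by_cases hcase : ∀ r, r₁ ≤ r → 0 < pp φ r
  · exact Or.inl hcase
  right
  push Not at hcase
  obtain ⟨s, hs1, hs2⟩ := hcase
  set S : Set ℝ := {r | r₁ ≤ r ∧ pp φ r ≤ 0} with hS
  have hne : S.Nonempty := ⟨s, hs1, hs2⟩
  obtain ⟨R, hR⟩ := eventually_atTop.1 (hp.eventually (lt_mem_nhds (show (0:ℝ) < 1 by norm_num)))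
  have hbdd : BddAbove S := by
    refine ⟨R, fun r hr => ?_⟩
    by_contra hlt
    exact absurd hr.2 (not_le.2 (hR r (not_le.1 hlt).le))
  set r₀ := sSup S with hr₀
  have h10 : r₁ ≤ r₀ := hs1.trans (le_csSup hbdd ⟨hs1, hs2⟩)
  have h00 : 0 < r₀ := hr₁.trans_le h10
  have hgt : ∀ r, r₀ < r → 0 < pp φ r := by
    intro r hr
    by_contra hle
    exact absurd (le_csSup hbdd (show r ∈ S from ⟨h10.trans hr.le, not_lt.1 hle⟩)) (not_le.2 hr)
  have hle0 : pp φ r₀ ≤ 0 := by
    have hcl : r₀ ∈ closure S := csSup_mem_closure hne hbdd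
    obtain ⟨s, hs, hlim⟩ := mem_closure_iff_seq_limit.1 hcl
    exact le_of_tendsto ((hφ.pp_cont h00).tendsto.comp hlim) (Eventually.of_forall fun n => (hs n).2)
  have hge0 : 0 ≤ pp φ r₀ := by
    have h4 : Tendsto (pp φ) (𝓝[>] r₀) (𝓝 (pp φ r₀)) :=
      (hφ.pp_cont h00).tendsto.mono_left nhdsWithin_le_nhds
    exact ge_of_tendsto h4 (eventually_nhdsWithin_of_forall fun r hr => (hgt r hr).le)
  exact ⟨r₀, h10, le_antisymm hle0 hge0, hgt⟩

theorem DD_of_const {h : E → Matrix (Fin 3) (Fin 3) ℝ} {r q : ℝ} (hr : 0 < r)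
    (hq : ∀ w : E, ‖w‖ = 1 → qq h (r • w) = q) (j : Fin 3) : DD h j r = 0 := by
  unfold DD
  rw [sphAvg_congr (G := fun x => q * un j x) (fun w hw => by rw [hq w hw]), sphAvg_mul,
    sphAvg_un j hr, mul_zero]

theorem mono_of_deriv {f : ℝ → ℝ} {f' : ℝ → ℝ} {r₀ : ℝ} (hc : ∀ r, r₀ ≤ r → ContinuousAt f r)
    (hd : ∀ r, r₀ < r → HasDerivAt f (f' r) r) (hn : ∀ r, r₀ < r → 0 ≤ f' r) :
    ∀ r, r₀ ≤ r → f r₀ ≤ f r := by
  intro r hr
  have : MonotoneOn f (Ici r₀) := by
    apply monotoneOn_of_deriv_nonneg (convex_Ici r₀)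
    · exact fun r hr => (hc r hr).continuousWithinAt
    · intro r hr
      rw [interior_Ici] at hr
      exact (hd r hr).differentiableAt.differentiableWithinAt
    · intro r hr
      rw [interior_Ici] at hr
      rw [(hd r hr).deriv]
      exact hn r hr
  exact this (mem_Ici.2 le_rfl) (mem_Ici.2 hr) hr

theorem HatF_cont {φ : ℝ → ℝ} (hφ : Good φ) {h : E → Matrix (Fin 3) (Fin 3) ℝ} (H : Tensor h)
    {r : ℝ} (hr : 0 < r) : ContinuousAt (HatF φ h) r := by
  have hp := hφ.pos r hr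
  have cq : ContinuousAt (sphAvg (qq h)) r :=
    (sphAvg_hasDerivAt H.qq_smooth hr).continuousAt
  have cD : ContinuousAt (D2 h) r := by
    unfold D2
    exact tendsto_finsetSum _ fun j _ => ((DD_hasDerivAt H j hr).continuousAt.pow 2)
  have cφ := hφ.cont hr
  have cF : ContinuousAt (FF φ (sphAvg (qq h))) r := by
    unfold FF YY
    exact (((cφ.pow 2).mul continuousAt_id).mul (continuousAt_const.sub
      ((hφ.pp_cont hr).pow 2))).add (((continuousAt_id.pow 3).mul (cq.pow 2)).div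
      (continuousAt_const.mul (cφ.pow 2)) (by positivity))
  exact cF.add (((continuousAt_const.mul (continuousAt_id.pow 3)).mul cD).div
    (continuousAt_const.mul (cφ.pow 2)) (by positivity))

theorem PsiM_cont {φ : ℝ → ℝ} (hφ : Good φ) {h : E → Matrix (Fin 3) (Fin 3) ℝ} (H : Tensor h)
    {r : ℝ} (hr : 0 < r) : ContinuousAt (PsiM φ h) r := by
  have hp := hφ.pos r hr
  have cq : ContinuousAt (sphAvg (qq h)) r :=
    (sphAvg_hasDerivAt H.qq_smooth hr).continuousAt
  have cM : ∀ j, ContinuousAt (sphAvg (mixed h j)) r := fun j =>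
    (sphAvg_hasDerivAt (mixed_contDiffOn H j) hr).continuousAt
  have cDD : ∀ j, ContinuousAt (DD h j) r := fun j => (DD_hasDerivAt H j hr).continuousAt
  have cD : ContinuousAt (D2 h) r := by
    unfold D2
    exact tendsto_finsetSum _ fun j _ => ((cDD j).pow 2)
  have cB : ContinuousAt (B2 h) r := by
    unfold B2
    exact tendsto_finsetSum _ fun j _ => ((cM j).pow 2)
  have cBD : ContinuousAt (BD h) r := by
    unfold BD
    exact tendsto_finsetSum _ fun j _ => ((cM j).mul (cDD j))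
  have cφ := hφ.cont hr
  have cp := hφ.pp_cont hr
  have c2 : ContinuousAt (fun s => 2 * (φ s) ^ 2) r := continuousAt_const.mul (cφ.pow 2)
  have hne : (2:ℝ) * (φ r) ^ 2 ≠ 0 := by positivity
  unfold PsiM
  exact ((HatF_cont hφ H hr).pow 2).sub ((continuousAt_id.pow 4).mul
    ((cD.sub ((continuousAt_const.mul cp).mul cBD)).add (((cp.pow 2).sub
      (((continuousAt_id.mul cq).div c2 hne).pow 2)).mul cB)))

end Pool.Agent.J4.H92.PI
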