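import Pool.Agent.K4H63.PI.Peak

/-!
# Linear momentum: the sign of the derivative of the quasilocal rest mass
-/

set_option autoImplicit false

namespace Pool.Agent.J4.H92.PI

open Pool.Agent.K4H63.PI
open scoped BigOperators Topology
open Matrix Filter Set MeasureTheory

/-- From `Ψ ≥ 0` and `F > 0`: `2 F + r³ b² / P² ≥ 2 r² b`. -/
theorem two_F_ge {P r F b : ℝ} (hF0 : 0 < F)
    (hPsi : 0 ≤ F ^ 2 + r ^ 3 * F * b ^ 2 / P ^ 2 - r ^ 4 * b ^ 2) :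
    2 * r ^ 2 * b ≤ 2 * F + r ^ 3 * b ^ 2 / P ^ 2 := by
  have h1 : F * (2 * F + r ^ 3 * b ^ 2 / P ^ 2 - 2 * r ^ 2 * b) =
      (F ^ 2 + r ^ 3 * F * b ^ 2 / P ^ 2 - r ^ 4 * b ^ 2) + (r ^ 2 * b - F) ^ 2 := by
    ring
  have h2 : 0 ≤ F * (2 * F + r ^ 3 * b ^ 2 / P ^ 2 - 2 * r ^ 2 * b) := by
    rw [h1]; positivity
  have := nonneg_of_mul_nonneg_right h2 hF0
  linarith

/-- The sign in the case where the radial momentum flux of the matter and `tr_S h` have opposite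
signs. -/
theorem psi_sign_three {P r y x F F' M N b BJ : ℝ} (hP : 0 < P) (hr : 0 < r) (hy : 0 < y)
    (hs : 1 - F / (P ^ 2 * r) = y ^ 2 - x ^ 2) (hs0 : 0 ≤ y ^ 2 - x ^ 2)
    (hF0 : 0 < F) (hb : 0 ≤ b)
    (hPsi : 0 ≤ F ^ 2 + r ^ 3 * F * b ^ 2 / P ^ 2 - r ^ 4 * b ^ 2)
    (hM : 0 ≤ M) (hN : 3 * b ^ 2 ≤ N) (hF' : r ^ 2 / (2 * P ^ 2) * (y * (M + N)) ≤ F')
    (hJ : 2 * P ^ 2 * BJ ≤ max 1 y * b * M) :
    0 ≤ y * F' * (2 * F + r ^ 3 * b ^ 2 / P ^ 2) - 3 * r ^ 2 * y ^ 2 / P ^ 2 * b ^ 2 * F +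
      2 * r ^ 3 * b ^ 2 * x ^ 2 - 2 * r ^ 4 * (1 - F / (P ^ 2 * r)) * BJ := by
  have hG := two_F_ge (P := P) hF0 hPsi
  have hs1 : y ^ 2 - x ^ 2 < 1 := by
    rw [← hs]
    have : 0 < F / (P ^ 2 * r) := by positivity
    linarith
  rw [hs]
  set s := y ^ 2 - x ^ 2 with hsdef
  have hsm : s * max 1 y ≤ y ^ 2 := by
    rcases le_total 1 y with h | h
    · rw [max_eq_right h]
      nlinarith
    · rw [max_eq_left h]
      nlinarith [sq_nonneg x]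
  have hG0 : 0 ≤ 2 * F + r ^ 3 * b ^ 2 / P ^ 2 := by positivity
  have h1 : y * (r ^ 2 / (2 * P ^ 2) * (y * (M + N))) * (2 * F + r ^ 3 * b ^ 2 / P ^ 2) ≤
      y * F' * (2 * F + r ^ 3 * b ^ 2 / P ^ 2) :=
    mul_le_mul_of_nonneg_right (mul_le_mul_of_nonneg_left hF' hy.le) hG0
  -- the `N` part
  have h2 : 3 * r ^ 2 * y ^ 2 / P ^ 2 * b ^ 2 * F ≤
      y * (r ^ 2 / (2 * P ^ 2) * (y * N)) * (2 * F + r ^ 3 * b ^ 2 / P ^ 2) := by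
    have e : 3 * r ^ 2 * y ^ 2 / P ^ 2 * b ^ 2 * F =
        y * (r ^ 2 / (2 * P ^ 2) * (y * (3 * b ^ 2))) * (2 * F) := by
      field_simp
    rw [e]
    have h3 : y * (r ^ 2 / (2 * P ^ 2) * (y * (3 * b ^ 2))) ≤
        y * (r ^ 2 / (2 * P ^ 2) * (y * N)) :=
      mul_le_mul_of_nonneg_left (mul_le_mul_of_nonneg_left (mul_le_mul_of_nonneg_left hN hy.le)
        (by positivity)) hy.le
    have h4 : 2 * F ≤ 2 * F + r ^ 3 * b ^ 2 / P ^ 2 := by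
      have : 0 ≤ r ^ 3 * b ^ 2 / P ^ 2 := by positivity
      linarith
    exact mul_le_mul h3 h4 (by positivity) (h3.trans' (by positivity))
  -- the `M` part
  have h5 : 2 * r ^ 4 * s * BJ ≤
      y * (r ^ 2 / (2 * P ^ 2) * (y * M)) * (2 * F + r ^ 3 * b ^ 2 / P ^ 2) := by
    have h6 : y * (r ^ 2 / (2 * P ^ 2) * (y * M)) * (2 * r ^ 2 * b) ≤
        y * (r ^ 2 / (2 * P ^ 2) * (y * M)) * (2 * F + r ^ 3 * b ^ 2 / P ^ 2) :=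
      mul_le_mul_of_nonneg_left hG (by positivity)
    refine le_trans ?_ h6
    have h7 : 2 * r ^ 4 * s * BJ = r ^ 4 * s / P ^ 2 * (2 * P ^ 2 * BJ) := by
      field_simp
    have h8 : r ^ 4 * s / P ^ 2 * (2 * P ^ 2 * BJ) ≤ r ^ 4 * s / P ^ 2 * (max 1 y * b * M) :=
      mul_le_mul_of_nonneg_left hJ (by positivity)
    have h9 : r ^ 4 * s / P ^ 2 * (max 1 y * b * M) = r ^ 4 * b * M / P ^ 2 * (s * max 1 y) := by
      ring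
    have h10 : r ^ 4 * b * M / P ^ 2 * (s * max 1 y) ≤ r ^ 4 * b * M / P ^ 2 * y ^ 2 :=
      mul_le_mul_of_nonneg_left hsm (by positivity)
    have h11 : r ^ 4 * b * M / P ^ 2 * y ^ 2 =
        y * (r ^ 2 / (2 * P ^ 2) * (y * M)) * (2 * r ^ 2 * b) := by
      field_simp
    rw [h7]
    linarith
  have h12 : 0 ≤ 2 * r ^ 3 * b ^ 2 * x ^ 2 := by positivity
  have h13 : y * (r ^ 2 / (2 * P ^ 2) * (y * (M + N))) * (2 * F + r ^ 3 * b ^ 2 / P ^ 2) =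
      y * (r ^ 2 / (2 * P ^ 2) * (y * M)) * (2 * F + r ^ 3 * b ^ 2 / P ^ 2) +
      y * (r ^ 2 / (2 * P ^ 2) * (y * N)) * (2 * F + r ^ 3 * b ^ 2 / P ^ 2) := by
    ring
  linarith

/-- The sign in the case where the momentum of the matter is not aligned with the average of
`h(ν, ·)`. -/
theorem psi_sign_four {P r y x F F' N b BJ : ℝ} (hP : 0 < P) (hr : 0 < r) (hy : 0 < y)
    (hs : 1 - F / (P ^ 2 * r) = y ^ 2 - x ^ 2) (hs0 : 0 ≤ y ^ 2 - x ^ 2)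
    (hF0 : 0 < F) (hN : 3 * b ^ 2 ≤ N) (hF' : r ^ 2 / (2 * P ^ 2) * (y * N) ≤ F')
    (hJ : BJ ≤ 0) :
    0 ≤ y * F' * (2 * F + r ^ 3 * b ^ 2 / P ^ 2) - 3 * r ^ 2 * y ^ 2 / P ^ 2 * b ^ 2 * F +
      2 * r ^ 3 * b ^ 2 * x ^ 2 - 2 * r ^ 4 * (1 - F / (P ^ 2 * r)) * BJ := by
  rw [hs]
  set s := y ^ 2 - x ^ 2 with hsdef
  have hG0 : 0 ≤ 2 * F + r ^ 3 * b ^ 2 / P ^ 2 := by positivity
  have h1 : y * (r ^ 2 / (2 * P ^ 2) * (y * N)) * (2 * F + r ^ 3 * b ^ 2 / P ^ 2) ≤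
      y * F' * (2 * F + r ^ 3 * b ^ 2 / P ^ 2) :=
    mul_le_mul_of_nonneg_right (mul_le_mul_of_nonneg_left hF' hy.le) hG0
  have h2 : 3 * r ^ 2 * y ^ 2 / P ^ 2 * b ^ 2 * F ≤
      y * (r ^ 2 / (2 * P ^ 2) * (y * N)) * (2 * F + r ^ 3 * b ^ 2 / P ^ 2) := by
    have e : 3 * r ^ 2 * y ^ 2 / P ^ 2 * b ^ 2 * F =
        y * (r ^ 2 / (2 * P ^ 2) * (y * (3 * b ^ 2))) * (2 * F) := by
      field_simp
    rw [e]
    have h3 : y * (r ^ 2 / (2 * P ^ 2) * (y * (3 * b ^ 2))) ≤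
        y * (r ^ 2 / (2 * P ^ 2) * (y * N)) :=
      mul_le_mul_of_nonneg_left (mul_le_mul_of_nonneg_left (mul_le_mul_of_nonneg_left hN hy.le)
        (by positivity)) hy.le
    have h4 : 2 * F ≤ 2 * F + r ^ 3 * b ^ 2 / P ^ 2 := by
      have : 0 ≤ r ^ 3 * b ^ 2 / P ^ 2 := by positivity
      linarith
    exact mul_le_mul h3 h4 (by positivity) (h3.trans' (by positivity))
  have h5 : 2 * r ^ 4 * s * BJ ≤ 0 := mul_nonpos_of_nonneg_of_nonpos (by positivity) hJ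
  have h12 : 0 ≤ 2 * r ^ 3 * b ^ 2 * x ^ 2 := by positivity
  linarith

end Pool.Agent.J4.H92.PI
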