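import Pool.Agent.J4.H92.PI.Sign

/-!
# Linear momentum: averages of the dominant energy condition tested with vector fields
-/

set_option autoImplicit false

namespace Pool.Agent.J4.H92.PI

open Pool.Agent.K4H63.PI
open scoped BigOperators Topology
open Matrix Filter Set MeasureTheory

/-- `2 φ⁸` times the average of the energy density over the centred sphere of radius `r`. -/
noncomputable def MM (φ : ℝ → ℝ) (h : E → Matrix (Fin 3) (Fin 3) ℝ) (r : ℝ) : ℝ :=
  (φ r) ^ 8 * scal (metric φ) (r • (EuclideanSpace.single 0 1 : E)) +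
    sphAvg (fun x => 2 * hrad h x * qq h x + (qq h x) ^ 2 / 2 - transverse h x) r

theorem e0_norm : ‖(EuclideanSpace.single 0 1 : E)‖ = 1 := by simp

theorem quad_cont {h : E → Matrix (Fin 3) (Fin 3) ℝ} (H : Tensor h) :
    ContinuousOn (fun x => 2 * hrad h x * qq h x + (qq h x) ^ 2 / 2 - transverse h x) {0}ᶜ := by
  have cA := H.hrad_smooth.continuousOn
  have cQ := H.qq_smooth.continuousOn
  have cN := H.transverse_cont
  exact (((continuousOn_const.mul cA).mul cQ).add ((cQ.pow 2).div_const _)).sub cN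

/-- The averaged dominant energy condition tested with a vector field `V` with `|V| ≤ 1`. -/
theorem test_avg {φ : ℝ → ℝ} (hφ : Good φ) {h : E → Matrix (Fin 3) (Fin 3) ℝ} (H : Tensor h)
    {r : ℝ} (hr : 0 < r)
    (hdec : ∀ w : E, ‖w‖ = 1 →
      momentumNorm (metric φ) h (r • w) ≤ energy (metric φ) h (r • w))
    {V : Fin 3 → E → ℝ} (hV : ∀ i, ContinuousOn (V i) {0}ᶜ)
    (hV1 : ∀ w : E, ‖w‖ = 1 → ∑ i, (V i (r • w)) ^ 2 ≤ 1) :
    2 * (φ r) ^ 2 * sphAvg (fun x => ∑ i, V i x * JJ φ h i x) r ≤ MM φ h r := by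
  have cJ : ContinuousOn (fun x => ∑ i, V i x * JJ φ h i x) {0}ᶜ :=
    continuousOn_finsetSum _ fun i _ => (hV i).mul (JJ_cont hφ H i)
  have cG := quad_cont H
  set S := scal (metric φ) (r • (EuclideanSpace.single 0 1 : E)) with hS
  have h1 := sphAvg_mono (r := r)
    (F := fun x => 2 * (φ r) ^ 2 * ∑ i, V i x * JJ φ h i x)
    (G := fun x => (φ r) ^ 8 * S +
      (2 * hrad h x * qq h x + (qq h x) ^ 2 / 2 - transverse h x))
    (continuousOn_const.mul cJ) (continuousOn_const.add cG) hr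
    (fun w hw => by
      have hx := ray_ne hw hr
      have h2 := dec_test hφ H hx (hdec w hw) (V := fun i => V i (r • w)) (hV1 w hw)
      have hp0 := ray_ne e0_norm hr
      have hs : scal (metric φ) (r • w) = S := by
        rw [hS, scal_metric hφ hx, scal_metric hφ hp0, ray_norm hw hr, ray_norm e0_norm hr]
      rw [ray_norm hw hr, hs] at h2
      exact h2)
  rw [sphAvg_mul, sphAvg_add (F := fun _ => (φ r) ^ 8 * S) continuousOn_const cG hr,
    sphAvg_const] at h1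
  exact h1

/-- The average of the radial component of `JJ`. -/
noncomputable def JR (φ : ℝ → ℝ) (h : E → Matrix (Fin 3) (Fin 3) ℝ) (r : ℝ) : ℝ :=
  sphAvg (fun x => ∑ k, un k x * JJ φ h k x) r

theorem JR_eq {φ : ℝ → ℝ} (hφ : Good φ) {h : E → Matrix (Fin 3) (Fin 3) ℝ} (H : Tensor h)
    {r : ℝ} (hr : 0 < r) :
    JR φ h r = (2 * sphAvg (hrad h) r - sphAvg (qq h) r) / r - sphAvg (dr (qq h)) r +
      r * psi φ r * (2 * sphAvg (hrad h) r + sphAvg (qq h) r) := by
  have cA := H.hrad_smooth.continuousOn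
  have cQ := H.qq_smooth.continuousOn
  have cD := divMixed_cont H
  have cdQ := dr_cont H.qq_smooth
  set b : ℝ := 2 * (1 / r) + 2 * (r * psi φ r) with hb
  set c : ℝ := r * psi φ r - 1 / r with hc
  unfold JR
  rw [sphAvg_congr (F := fun x => ∑ k, un k x * JJ φ h k x)
    (G := fun x => (divMixed h x - dr (qq h) x) + (b * hrad h x + c * qq h x))
    (fun w hw => by
      have hx := ray_ne hw hr
      rw [radial_JJ hφ H hx, ray_norm hw hr, hb, hc]
      ring)]
  rw [sphAvg_add (F := fun x => divMixed h x - dr (qq h) x)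
    (G := fun x => b * hrad h x + c * qq h x) (cD.sub cdQ)
    ((continuousOn_const.mul cA).add (continuousOn_const.mul cQ)) hr,
    sphAvg_sub cD cdQ hr,
    sphAvg_add (F := fun x => b * hrad h x) (G := fun x => c * qq h x)
      (continuousOn_const.mul cA) (continuousOn_const.mul cQ) hr,
    sphAvg_mul, sphAvg_mul, sphAvg_divMixed H hr, hb, hc]
  ring

/-- `2 φ² |⟨J_ν⟩| ≤ M`. -/
theorem JR_le {φ : ℝ → ℝ} (hφ : Good φ) {h : E → Matrix (Fin 3) (Fin 3) ℝ} (H : Tensor h)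
    {r : ℝ} (hr : 0 < r)
    (hdec : ∀ w : E, ‖w‖ = 1 →
      momentumNorm (metric φ) h (r • w) ≤ energy (metric φ) h (r • w)) :
    2 * (φ r) ^ 2 * |JR φ h r| ≤ MM φ h r := by
  have hsum : ∀ w : E, ‖w‖ = 1 → ∑ i, (un i (r • w)) ^ 2 = 1 := by
    intro w hw
    have := sum_unit (ray_ne hw hr)
    exact this
  have h1 := test_avg hφ H hr hdec (V := un) un_cont (fun w hw => (hsum w hw).le)
  have h2 := test_avg hφ H hr hdec (V := fun i x => -(un i x)) (fun i => (un_cont i).neg)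
    (fun w hw => by simp only [neg_sq]; exact (hsum w hw).le)
  have e : sphAvg (fun x => ∑ i, -(un i x) * JJ φ h i x) r = -JR φ h r := by
    unfold JR
    rw [sphAvg_congr (G := fun x => (-1) * ∑ i, un i x * JJ φ h i x) (fun w _ => by
      rw [Finset.mul_sum]
      exact Finset.sum_congr rfl fun i _ => by ring), sphAvg_mul]
    ring
  rw [e] at h2
  change 2 * (φ r) ^ 2 * JR φ h r ≤ MM φ h r at h1
  rcases abs_cases (JR φ h r) with ⟨h3, _⟩ | ⟨h3, _⟩ <;> rw [h3] <;> assumption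

theorem MM_nonneg {φ : ℝ → ℝ} (hφ : Good φ) {h : E → Matrix (Fin 3) (Fin 3) ℝ} (H : Tensor h)
    {r : ℝ} (hr : 0 < r)
    (hdec : ∀ w : E, ‖w‖ = 1 →
      momentumNorm (metric φ) h (r • w) ≤ energy (metric φ) h (r • w)) : 0 ≤ MM φ h r :=
  (by positivity : (0:ℝ) ≤ 2 * (φ r) ^ 2 * |JR φ h r|).trans (JR_le hφ H hr hdec)

/-- `∑ B_j ⟨JT_j⟩`. -/
noncomputable def BJ (φ : ℝ → ℝ) (h : E → Matrix (Fin 3) (Fin 3) ℝ) (r : ℝ) : ℝ :=
  ∑ j, sphAvg (mixed h j) r * sphAvg (JT φ h (pp φ r) j) r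

theorem BJ_le {φ : ℝ → ℝ} (hφ : Good φ) {h : E → Matrix (Fin 3) (Fin 3) ℝ} (H : Tensor h)
    {r : ℝ} (hr : 0 < r) (hy : 0 < pp φ r)
    (hdec : ∀ w : E, ‖w‖ = 1 →
      momentumNorm (metric φ) h (r • w) ≤ energy (metric φ) h (r • w)) :
    2 * (φ r) ^ 2 * BJ φ h r ≤ max 1 (pp φ r) * Real.sqrt (B2 h r) * MM φ h r := by
  set y := pp φ r with hyd
  set B : Fin 3 → ℝ := fun j => sphAvg (mixed h j) r with hB
  have hB2 : B2 h r = ∑ j, (B j) ^ 2 := rfl
  have hB0 : 0 ≤ B2 h r := by rw [hB2]; positivity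
  rcases hB0.eq_or_lt with hz | hpos
  · have hj : ∀ j, B j = 0 := by
      intro j
      have h1 : (B j) ^ 2 ≤ ∑ j, (B j) ^ 2 :=
        Finset.single_le_sum (f := fun j => (B j) ^ 2) (fun i _ => sq_nonneg _)
          (Finset.mem_univ j)
      rw [← hB2, ← hz] at h1
      exact pow_eq_zero_iff (two_ne_zero) |>.1 (le_antisymm h1 (sq_nonneg _))
    have : BJ φ h r = 0 := by
      unfold BJ
      refine Finset.sum_eq_zero fun j _ => ?_
      change B j * _ = 0
      rw [hj j, zero_mul]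
    rw [this, ← hz]
    simp
  set b := Real.sqrt (B2 h r) with hb
  have hbp : 0 < b := Real.sqrt_pos.2 hpos
  have hbsq : b ^ 2 = B2 h r := Real.sq_sqrt hB0
  set m := max 1 y with hm
  have hm1 : 1 ≤ m := le_max_left _ _
  have hmy : y ≤ m := le_max_right _ _
  have hm0 : 0 < m := lt_of_lt_of_le one_pos hm1
  set V : Fin 3 → E → ℝ := fun i x =>
    (m * b)⁻¹ * (y * B i + (1 - y) * (∑ j, B j * un j x) * un i x) with hV
  have cBu : ContinuousOn (fun x => ∑ j, B j * un j x) {0}ᶜ :=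
    continuousOn_finsetSum _ fun j _ => continuousOn_const.mul (un_cont j)
  have cV : ∀ i, ContinuousOn (V i) {0}ᶜ := fun i =>
    continuousOn_const.mul (continuousOn_const.add
      ((continuousOn_const.mul cBu).mul (un_cont i)))
  have hV1 : ∀ w : E, ‖w‖ = 1 → ∑ i, (V i (r • w)) ^ 2 ≤ 1 := by
    intro w hw
    have hu := norm_sq_eq w
    rw [hw] at hu
    have hcs := Finset.sum_mul_sq_le_sq_mul_sq Finset.univ B (fun j => w j)
    simp only [hV, Fin.sum_univ_three] at hcs ⊢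
    simp only [un_ray hw hr]
    rw [Fin.sum_univ_three] at hB2
    set d := B 0 * w 0 + B 1 * w 1 + B 2 * w 2 with hd
    have hd2 : d ^ 2 ≤ b ^ 2 := by
      rw [hbsq, hB2]
      refine hcs.trans (le_of_eq ?_)
      rw [show w 0 ^ 2 + w 1 ^ 2 + w 2 ^ 2 = 1 by linarith, mul_one]
    have e : ((m * b)⁻¹ * (y * B 0 + (1 - y) * d * w 0)) ^ 2 +
        ((m * b)⁻¹ * (y * B 1 + (1 - y) * d * w 1)) ^ 2 +
        ((m * b)⁻¹ * (y * B 2 + (1 - y) * d * w 2)) ^ 2 =
        ((m * b)⁻¹) ^ 2 * (y ^ 2 * (b ^ 2 - d ^ 2) + d ^ 2) := by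
      rw [hbsq, hB2]
      linear_combination (-((m * b)⁻¹) ^ 2 * (1 - y) ^ 2 * d ^ 2) * hu +
        (-2 * ((m * b)⁻¹) ^ 2 * y * (1 - y) * d) * hd
    rw [e]
    have h3 : y ^ 2 * (b ^ 2 - d ^ 2) + d ^ 2 ≤ (m * b) ^ 2 := by
      have hym : y ^ 2 ≤ m ^ 2 := pow_le_pow_left₀ hy.le hmy 2
      have h1m : 1 ≤ m ^ 2 := one_le_pow₀ hm1
      have k1 := mul_le_mul_of_nonneg_right hym (sub_nonneg.2 hd2)
      have k2 := mul_le_mul_of_nonneg_right h1m (sq_nonneg d)
      have k3 : (m * b) ^ 2 = m ^ 2 * (b ^ 2 - d ^ 2) + m ^ 2 * d ^ 2 := by ring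
      rw [k3]
      linarith
    calc ((m * b)⁻¹) ^ 2 * (y ^ 2 * (b ^ 2 - d ^ 2) + d ^ 2)
        ≤ ((m * b)⁻¹) ^ 2 * (m * b) ^ 2 := mul_le_mul_of_nonneg_left h3 (by positivity)
      _ = 1 := by
        rw [← mul_pow, inv_mul_cancel₀ (by positivity), one_pow]
  have h1 := test_avg hφ H hr hdec cV hV1
  have cJT : ∀ j, ContinuousOn (fun x => B j * JT φ h y j x) {0}ᶜ := fun j =>
    continuousOn_const.mul (JT_cont hφ H y j)
  have e2 : sphAvg (fun x => ∑ i, V i x * JJ φ h i x) r = (m * b)⁻¹ * BJ φ h r := by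
    have e3 : ∀ w : E, ‖w‖ = 1 → (∑ i, V i (r • w) * JJ φ h i (r • w)) =
        (m * b)⁻¹ * ∑ j, B j * JT φ h y j (r • w) := by
      intro w hw
      unfold JT
      simp only [hV, Fin.sum_univ_three]
      ring
    rw [sphAvg_congr (F := fun x => ∑ i, V i x * JJ φ h i x)
      (G := fun x => (m * b)⁻¹ * ∑ j, B j * JT φ h y j x) e3, sphAvg_mul, sphAvg_sum cJT hr]
    congr 1
    unfold BJ
    refine Finset.sum_congr rfl fun j _ => ?_
    rw [sphAvg_mul]
  rw [e2] at h1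
  have h4 := mul_le_mul_of_nonneg_left h1 (show 0 ≤ m * b by positivity)
  have e5 : m * b * (2 * (φ r) ^ 2 * ((m * b)⁻¹ * BJ φ h r)) = 2 * (φ r) ^ 2 * BJ φ h r := by
    field_simp
  rw [e5] at h4
  exact h4

end Pool.Agent.J4.H92.PI
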